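import Mathlib
import Pool.Agent.Y887.TD.ConsA
import Pool.Agent.Y887.TD.FormsTD

/-!
Construction of the coefficients `x i`, `z j` with `P z j = Q x i + δ g i j`, `g i j` dividing both,
all congruent to `1` modulo `Λ`, and prescribed interaction of the exponent patterns.
-/

set_option autoImplicit false

namespace Pool.Agent.Y887.DK

open Finset Pool.Agent.Y887.TD

/-- the value at `n` of the multiplicative function with value `f e` at every `p ^ e` -/
def Fm {Γ : Type*} [CommMonoid Γ] (f : ℕ → Γ) (n : ℕ) : Γ := ∏ p ∈ n.primeFactors, f (n.factorization p)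

theorem Fm_prod {Γ : Type*} [CommMonoid Γ] {f : ℕ → Γ} (h0 : f 0 = 1) {n : ℕ} {S : Finset ℕ}
    (hS : n.primeFactors ⊆ S) : Fm f n = ∏ p ∈ S, f (n.factorization p) := by
  unfold Fm
  apply prod_subset hS
  intro p _ hp
  have : n.factorization p = 0 := by
    rw [← Nat.support_factorization] at hp
    exact Finsupp.notMem_support_iff.1 hp
  rw [this, h0]

theorem dvd_of_pow {D : ℕ} {w : ℤ} {N : ℕ} (hD : D ≠ 0) (hN : D ≤ N)
    (h : ∀ p ∈ D.primeFactors, (p : ℤ) ^ N ∣ w) : (D : ℤ) ∣ w := by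
  rw [Int.natCast_dvd]
  rw [Nat.dvd_iff_prime_pow_dvd_dvd]
  intro p k hp hpk
  rcases Nat.eq_zero_or_pos k with rfl | hk
  · simp
  have h1 : p ∣ D := (dvd_pow_self p hk.ne').trans hpk
  have h2 := h p (Nat.mem_primeFactors.2 ⟨hp, h1, hD⟩)
  have h3 : k ≤ N := by
    have h4 : p ^ k ≤ D := Nat.le_of_dvd (Nat.pos_of_ne_zero hD) hpk
    have h5 : k < p ^ k := Nat.lt_pow_self hp.one_lt
    omega
  have h6 : ((p ^ k : ℕ) : ℤ) ∣ w := by
    push_cast
    exact (pow_dvd_pow _ h3).trans h2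
  exact Int.natCast_dvd.1 h6

set_option maxHeartbeats 4000000 in
theorem construct2 {k : ℕ} {κ : Type} [Fintype κ] (s t : κ → Fin k) (α β : κ → ℕ)
    (hα : ∀ y, 1 ≤ α y) (hβ : ∀ y, 1 ≤ β y) (hαβ : ∀ y, α y ≠ β y) (P Q δ Λ : ℕ) (hP : 1 ≤ P)
    (hQ : 1 ≤ Q) (hδ : 1 ≤ δ) (hPQ : P = Q + δ) (hΛ : 1 ≤ Λ) (hPΛ : P ∣ Λ) (hQΛ : Q ∣ Λ)
    (hδΛ : δ ∣ Λ) (hkΛ : ∀ p : ℕ, p.Prime → p ≤ k → p ∣ Λ) :
    ∃ (x z : Fin k → ℕ) (g : Fin k → Fin k → ℕ),
      (∀ i, 0 < x i) ∧ (∀ j, 0 < z j) ∧ Function.Injective x ∧ Function.Injective z ∧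
      (∀ i j, P * z j = Q * x i + δ * g i j) ∧ (∀ i j, 0 < g i j) ∧ (∀ i j, g i j ∣ x i) ∧
      (∀ i j, g i j ∣ z j) ∧
      (∀ i, (Λ : ℤ) ∣ (x i : ℤ) - 1) ∧ (∀ j, (Λ : ℤ) ∣ (z j : ℤ) - 1) ∧
      (∀ i j, (Λ : ℤ) ∣ (g i j : ℤ) - 1) ∧
      (∀ i j, ∀ p : ℕ, p.Prime → p ∣ x i → p ∣ z j → p ∣ g i j ∧
        (p ∣ x i / g i j ∨ p ∣ z j / g i j ∨ (p : ℤ) ∣ ((z j / g i j : ℕ) : ℤ) - 1)) ∧
      ∀ {Γ : Type} [CommMonoid Γ] (f : ℕ → Γ), f 0 = 1 → ∀ i j,
        Fm f (z j / g i j) * Fm f (x i) *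
          ∏ y : κ, (if s y = i ∧ t y = j then f (α y - β y) * f (β y) else 1) =
        Fm f (x i / g i j) * Fm f (z j) *
          ∏ y : κ, (if s y = i ∧ t y = j then f (β y - α y) * f (α y) else 1) := by
  classical
  -- the primes of the gadget
  set ℓ : κ → ℕ := fun y => Nat.nth Nat.Prime (Λ + (Fintype.equivFin κ y : ℕ)) with hℓ
  have hinf := Nat.infinite_setOfPred_prime
  have hℓp : ∀ y, (ℓ y).Prime := fun y => Nat.prime_nth_prime _
  have hℓinj : Function.Injective ℓ := by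
    intro y y' h
    have h1 := (Nat.nth_injective hinf) h
    have h2 : (Fintype.equivFin κ y : ℕ) = Fintype.equivFin κ y' := by omega
    exact (Fintype.equivFin κ).injective (Fin.ext h2)
  have hℓΛ : ∀ y, Λ < ℓ y := by
    intro y
    have h1 : Λ + (Fintype.equivFin κ y : ℕ) + 2 ≤ ℓ y := Nat.add_two_le_nth_prime _
    omega
  have hℓnd : ∀ y, ∀ D : ℕ, D ∣ Λ → ¬ ℓ y ∣ D := by
    intro y D hD h
    have h1 := Nat.le_of_dvd (by omega) (h.trans hD)
    have := hℓΛ y
    omega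
  set S0 : Finset ℕ := Λ.primeFactors ∪ univ.image ℓ with hS0
  have hS0p : ∀ p ∈ S0, p.Prime := by
    intro p hp
    rw [hS0, mem_union, mem_image] at hp
    rcases hp with h | ⟨y, -, rfl⟩
    · exact Nat.prime_of_mem_primeFactors h
    · exact hℓp y
  have hΛS : ∀ p ∈ Λ.primeFactors, p ∈ S0 := fun p hp => mem_union_left _ hp
  have hmemℓ : ∀ y, ℓ y ∈ S0 := fun y => by
    rw [hS0, mem_union, mem_image]
    exact Or.inr ⟨y, mem_univ _, rfl⟩
  have hS0c : ∀ p ∈ S0, p ∣ Λ ∨ ∃ y, ℓ y = p := by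
    intro p hp
    rw [hS0, mem_union, mem_image] at hp
    rcases hp with h | ⟨y, -, h⟩
    · exact Or.inl (Nat.dvd_of_mem_primeFactors h)
    · exact Or.inr ⟨y, h⟩
  have hsmall : ∀ p : ℕ, p.Prime → p ≤ k → p ∈ S0 := fun p hp h =>
    hΛS p (Nat.mem_primeFactors.2 ⟨hp, hkΛ p hp h, by omega⟩)
  have hnd : ∀ p : ℕ, p.Prime → p ∉ S0 → ∀ D, D ∣ Λ → ¬ p ∣ D := fun p hp hpS D hD h =>
    hpS (hΛS p (Nat.mem_primeFactors.2 ⟨hp, h.trans hD, by omega⟩))
  -- the exponent
  set N : ℕ := δ * Λ * P + ∑ y, (α y + β y) + 2 with hN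
  have hNαβ : ∀ y, α y + 1 ≤ N ∧ β y + 1 ≤ N := by
    intro y
    have := single_le_sum (f := fun y => α y + β y) (s := univ) (fun _ _ => Nat.zero_le _)
      (mem_univ y)
    omega
  have hN1 : 1 ≤ N := by omega
  -- the numbers E
  set aE : ℕ → ℕ → ℤ := fun i p => if h : ∃ y, ℓ y = p ∧ (s y : ℕ) = i then
    (p : ℤ) ^ (α h.choose) else 1 with haE
  obtain ⟨E, hE1, -, hE3⟩ := exists_seq (k := 0) (fun _ => 0) S0 hS0p
    (fun p hp h => absurd hp.two_le (by omega)) N hN1 aE 1 one_ne_zero 1 (fun i => i.elim0) k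
  -- the numbers G = P F
  set aF : ℕ → ℕ → ℤ := fun j p => P * (if h : ∃ y, ℓ y = p ∧ (t y : ℕ) = j then
    (p : ℤ) ^ (β h.choose) else 1) with haF
  set D0 : ℕ := ∏ i ∈ range k, ∏ i' ∈ range i, ((E i : ℤ) - E i').natAbs with hD0
  have hElt : ∀ i < k, ∀ i' < i, E i' < E i := fun i hi i' hi' => (hE3 i hi i' hi').1
  have hD0' : D0 ≠ 0 := by
    refine prod_ne_zero_iff.2 fun i hi => prod_ne_zero_iff.2 fun i' hi' => ?_
    have := hElt i (mem_range.1 hi) i' (mem_range.1 hi')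
    omega
  have hLE : ∀ i : Fin k, ((Q * E i : ℕ) : ℤ) < ((Q * ∑ j ∈ range k, E j + 1 : ℕ) : ℤ) := by
    intro i
    have := single_le_sum (f := E) (s := range k) (fun _ _ => Nat.zero_le _) (mem_range.2 i.isLt)
    have h2 := Nat.mul_le_mul_left Q this
    exact_mod_cast Nat.lt_succ_of_le h2
  obtain ⟨G, hG1, hG2, hG3⟩ := exists_seq (k := k) (fun i => ((Q * E i : ℕ) : ℤ)) S0 hS0p
    hsmall N hN1 aF D0 hD0' (Q * ∑ j ∈ range k, E j + 1) hLE k
  have hEG : ∀ i j : Fin k, Q * E i < G j := by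
    intro i j
    have h1 := (hG1 j j.isLt).1
    have h2 := hLE i
    have h3 : Q * E i < Q * ∑ j ∈ range k, E j + 1 := by exact_mod_cast h2
    omega
  -- residues modulo the primes of Λ
  have hnotℓ : ∀ p ∈ Λ.primeFactors, ∀ y, ℓ y ≠ p := by
    intro p hp y h
    exact hℓnd y Λ dvd_rfl (by rw [h]; exact Nat.dvd_of_mem_primeFactors hp)
  have hEΛ : ∀ i : Fin k, ∀ p ∈ Λ.primeFactors, (p : ℤ) ^ N ∣ (E i : ℤ) - 1 := by
    intro i p hp
    have h1 := (hE1 i i.isLt).2 p (hΛS p hp)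
    have h2 : aE i p = 1 := by
      rw [haE]
      simp only
      rw [dif_neg]
      rintro ⟨y, h, -⟩
      exact hnotℓ p hp y h
    rwa [h2] at h1
  have hGΛ : ∀ j : Fin k, ∀ p ∈ Λ.primeFactors, (p : ℤ) ^ N ∣ (G j : ℤ) - P := by
    intro i p hp
    have h1 := (hG1 i i.isLt).2 p (hΛS p hp)
    have h2 : aF i p = P := by
      rw [haF]
      simp only
      rw [dif_neg, mul_one]
      rintro ⟨y, h, -⟩
      exact hnotℓ p hp y h
    rwa [h2] at h1
  have hbig0 : δ * Λ * P ≠ 0 := by positivity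
  have hbigN : δ * Λ * P ≤ N := by omega
  have hbigpf : ∀ p ∈ (δ * Λ * P).primeFactors, p ∈ Λ.primeFactors := by
    intro p hp
    have hpp := Nat.prime_of_mem_primeFactors hp
    have h1 := Nat.dvd_of_mem_primeFactors hp
    refine Nat.mem_primeFactors.2 ⟨hpp, ?_, by omega⟩
    rcases (Nat.Prime.dvd_mul hpp).1 h1 with h | h
    · rcases (Nat.Prime.dvd_mul hpp).1 h with h | h
      · exact h.trans hδΛ
      · exact h
    · exact h.trans hPΛ
  have hEb : ∀ i : Fin k, ((δ * Λ * P : ℕ) : ℤ) ∣ (E i : ℤ) - 1 := fun i =>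
    dvd_of_pow hbig0 hbigN fun p hp => hEΛ i p (hbigpf p hp)
  have hGb : ∀ j : Fin k, ((δ * Λ * P : ℕ) : ℤ) ∣ (G j : ℤ) - P := fun i =>
    dvd_of_pow hbig0 hbigN fun p hp => hGΛ i p (hbigpf p hp)
  have hPG : ∀ j : Fin k, P ∣ G j := by
    intro j
    have h1 : (P : ℤ) ∣ (G j : ℤ) - P := by
      refine Dvd.dvd.trans ?_ (hGb j)
      push_cast
      exact dvd_mul_left _ _
    have h2 := dvd_add h1 (dvd_refl (P : ℤ))
    rw [sub_add_cancel] at h2
    exact_mod_cast h2
  choose F hF using hPG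
  have hFb : ∀ j, ((δ * Λ : ℕ) : ℤ) ∣ (F j : ℤ) - 1 := by
    intro j
    have h1 := hGb j
    have h2 : (G j : ℤ) - P = P * ((F j : ℤ) - 1) := by
      rw [hF j]; push_cast; ring
    rw [h2] at h1
    have h3 : ((δ * Λ * P : ℕ) : ℤ) = (P : ℤ) * ((δ * Λ : ℕ) : ℤ) := by push_cast; ring
    rw [h3] at h1
    exact (mul_dvd_mul_iff_left (by exact_mod_cast (show P ≠ 0 by omega))).1 h1
  -- separation of the pairs
  have hsep : ∀ p : ℕ, p.Prime → p ∉ S0 → ∀ i j i' j' : Fin k,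
      (p : ℤ) ∣ (G j : ℤ) - ((Q * E i : ℕ) : ℤ) →
      (p : ℤ) ∣ (G j' : ℤ) - ((Q * E i' : ℕ) : ℤ) → i = i' ∧ j = j' := by
    intro p hp hpS i j i' j' h1 h2
    have hj : j = j' := by
      rcases lt_trichotomy (j : ℕ) j' with h | h | h
      · exact absurd h1 ((hG3 j' j'.isLt j h).2 p hp hpS i' i h2)
      · exact Fin.ext h
      · exact absurd h2 ((hG3 j j.isLt j' h).2 p hp hpS i i' h1)
    subst hj
    refine ⟨?_, rfl⟩
    by_contra hne
    have h3 : (p : ℤ) ∣ (E i' : ℤ) - E i := by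
      have h4 := dvd_sub h1 h2
      have e : (G j : ℤ) - ((Q * E i : ℕ) : ℤ) - (G j - ((Q * E i' : ℕ) : ℤ)) =
          Q * (E i' - E i) := by push_cast; ring
      rw [e] at h4
      rcases (Nat.prime_iff_prime_int.1 hp).dvd_or_dvd h4 with h5 | h5
      · exact absurd (by exact_mod_cast h5) (hnd p hp hpS Q hQΛ)
      · exact h5
    have h4 : p ∣ D0 := by
      have key : ∀ a b : Fin k, (b : ℕ) < a → (p : ℤ) ∣ (E a : ℤ) - E b → p ∣ D0 := by
        intro a b hab hd
        have h5 : p ∣ ((E a : ℤ) - E b).natAbs := Int.natCast_dvd.1 hd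
        have h6 : ((E a : ℤ) - E b).natAbs ∣ ∏ i' ∈ range (a : ℕ), ((E a : ℤ) - E i').natAbs :=
          dvd_prod_of_mem (fun i' => ((E a : ℤ) - E i').natAbs) (mem_range.2 hab)
        exact (h5.trans h6).trans (dvd_prod_of_mem
          (fun i => ∏ i' ∈ range i, ((E i : ℤ) - E i').natAbs) (mem_range.2 a.isLt))
      rcases lt_trichotomy (i : ℕ) i' with h | h | h
      · exact key i' i h h3
      · exact absurd (Fin.ext h) hne
      · exact key i i' h (by
          have := dvd_neg.2 h3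
          rwa [neg_sub] at this)
    exact hG2 j j.isLt p hp hpS h4 i h1
  -- the numbers g
  have hgex : ∀ i j : Fin k, ∃ g : ℕ, P * F j = Q * E i + δ * g := by
    intro i j
    have h1 := hEG i j
    have h2 : (δ : ℤ) ∣ (G j : ℤ) - ((Q * E i : ℕ) : ℤ) := by
      have h3 : (δ : ℤ) ∣ (G j : ℤ) - P :=
        Dvd.dvd.trans (by push_cast; exact ⟨Λ * P, by ring⟩) (hGb j)
      have h4 : (δ : ℤ) ∣ (E i : ℤ) - 1 :=
        Dvd.dvd.trans (by push_cast; exact ⟨Λ * P, by ring⟩) (hEb i)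
      have h5 := dvd_add (dvd_sub h3 (h4.mul_left (Q : ℤ))) (dvd_refl (δ : ℤ))
      have e : (G j : ℤ) - P - Q * (E i - 1) + δ = G j - ((Q * E i : ℕ) : ℤ) := by
        rw [hPQ]; push_cast; ring
      rwa [e] at h5
    obtain ⟨w, hw⟩ := h2
    have hw0 : 0 ≤ w := by
      by_contra hneg
      push Not at hneg
      have h3 : (δ : ℤ) * w ≤ 0 := by nlinarith
      have h4 : ((Q * E i : ℕ) : ℤ) < G j := by exact_mod_cast h1
      linarith
    obtain ⟨w', rfl⟩ := Int.eq_ofNat_of_zero_le hw0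
    refine ⟨w', ?_⟩
    rw [← hF j]
    have h5 : (G j : ℤ) = ((Q * E i : ℕ) : ℤ) + δ * (w' : ℤ) := by linarith
    exact_mod_cast h5
  choose g hg using hgex
  have hgG : ∀ i j : Fin k, (G j : ℤ) - ((Q * E i : ℕ) : ℤ) = δ * g i j := by
    intro i j
    have h1 := hg i j
    rw [← hF j] at h1
    have h2 : (G j : ℤ) = ((Q * E i : ℕ) : ℤ) + δ * g i j := by exact_mod_cast h1
    linarith
  have hgpos : ∀ i j : Fin k, 0 < g i j := by
    intro i j
    have h3 := hEG i j
    have h4 := hg i j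
    rw [← hF j] at h4
    by_contra h0
    have h5 : g i j = 0 := by omega
    rw [h5, mul_zero, add_zero] at h4
    omega
  have hgΛ : ∀ i j : Fin k, (Λ : ℤ) ∣ (g i j : ℤ) - 1 := by
    intro i j
    have h3 : ((δ * Λ : ℕ) : ℤ) ∣ (G j : ℤ) - P :=
      Dvd.dvd.trans (by push_cast; exact dvd_mul_right _ _) (hGb j)
    have h4 : ((δ * Λ : ℕ) : ℤ) ∣ (E i : ℤ) - 1 :=
      Dvd.dvd.trans (by push_cast; exact dvd_mul_right _ _) (hEb i)
    have h5 := dvd_sub h3 (h4.mul_left (Q : ℤ))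
    have e : (G j : ℤ) - P - Q * (E i - 1) = δ * (g i j - 1) := by
      have := hgG i j
      have hPQz : (P : ℤ) = Q + δ := by exact_mod_cast hPQ
      push_cast at this
      linear_combination this - hPQz
    rw [e] at h5
    push_cast at h5
    exact (mul_dvd_mul_iff_left (by exact_mod_cast (show δ ≠ 0 by omega))).1 h5
  -- the number X0
  set N2 : ℕ := N + ∑ i, ∑ j, g i j with hN2
  have hN2g : ∀ i j, g i j + 1 ≤ N2 := by
    intro i j
    have h1 := single_le_sum (f := fun j => g i j) (s := univ) (fun _ _ => Nat.zero_le _) (mem_univ j)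
    have h2 := single_le_sum (f := fun i => ∑ j, g i j) (s := univ) (fun _ _ => Nat.zero_le _)
      (mem_univ i)
    omega
  have hw : ∀ p : ℕ, ∀ i j : Fin k, ∃ w : ℤ, p.Prime → p ∉ S0 →
      (p : ℤ) ^ N2 ∣ P * w - (g i j - E i) := by
    intro p i j
    by_cases hp : p.Prime ∧ p ∉ S0
    · obtain ⟨w, hw⟩ := exists_inv P p N2 hp.1 (hnd p hp.1 hp.2 P hPΛ) ((g i j : ℤ) - E i)
      exact ⟨w, fun _ _ => hw⟩
    · exact ⟨0, fun h1 h2 => absurd ⟨h1, h2⟩ hp⟩
  choose w hw using hw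
  set aP : ℕ → ℤ := fun p => if h : p ∉ S0 ∧ ∃ q : Fin k × Fin k, p ∣ g q.1 q.2 then
    w p h.2.choose.1 h.2.choose.2 else 0 with haP
  obtain ⟨X0, hX1, hX2⟩ := crt_pow (S0 ∪ (∏ i, ∏ j, g i j).primeFactors) (fun p hp => by
      rcases mem_union.1 hp with h | h
      · exact hS0p p h
      · exact Nat.prime_of_mem_primeFactors h) N2 aP 1
  have hprod0 : (∏ i, ∏ j, g i j) ≠ 0 :=
    prod_ne_zero_iff.2 fun i _ => prod_ne_zero_iff.2 fun j _ => (hgpos i j).ne'
  have hXS0 : ∀ p ∈ S0, (p : ℤ) ^ N ∣ (X0 : ℤ) := by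
    intro p hp
    have h1 := hX2 p (mem_union_left _ hp)
    rw [haP] at h1
    simp only at h1
    rw [dif_neg (fun h => h.1 hp), sub_zero] at h1
    exact (pow_dvd_pow _ (by omega)).trans h1
  have hXΛ : (Λ : ℤ) ∣ (X0 : ℤ) := by
    have hΛ0 : Λ ≠ 0 := by omega
    have hΛN : Λ ≤ N := by
      have h1 : Λ ≤ δ * Λ * P := by
        calc Λ = 1 * Λ * 1 := by ring
          _ ≤ δ * Λ * P := Nat.mul_le_mul (Nat.mul_le_mul hδ le_rfl) hP
      omega
    exact dvd_of_pow hΛ0 hΛN fun p hp => hXS0 p (hΛS p hp)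
  have hXg : ∀ p : ℕ, p.Prime → p ∉ S0 → ∀ i j, p ∣ g i j →
      (p : ℤ) ^ N2 ∣ ((P * X0 + E i : ℕ) : ℤ) - g i j := by
    intro p hp hpS i j hpg
    have hmem : p ∈ (∏ i, ∏ j, g i j).primeFactors := by
      rw [Nat.mem_primeFactors]
      refine ⟨hp, ?_, hprod0⟩
      exact (hpg.trans (dvd_prod_of_mem (fun j => g i j) (mem_univ j))).trans
        (dvd_prod_of_mem (fun i => ∏ j, g i j) (mem_univ i))
    have h1 := hX2 p (mem_union_right _ hmem)
    rw [haP] at h1
    simp only at h1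
    have hex : ∃ q : Fin k × Fin k, p ∣ g q.1 q.2 := ⟨(i, j), hpg⟩
    rw [dif_pos ⟨hpS, hex⟩] at h1
    have h2 : p ∣ g hex.choose.1 hex.choose.2 := hex.choose_spec
    have hd : ∀ i j, p ∣ g i j → (p : ℤ) ∣ (G j : ℤ) - ((Q * E i : ℕ) : ℤ) := by
      intro i j h
      rw [hgG]
      exact Dvd.dvd.mul_left (by exact_mod_cast h) _
    obtain ⟨e1, e2⟩ := hsep p hp hpS _ _ _ _ (hd _ _ h2) (hd _ _ hpg)
    rw [e1, e2] at h1
    have h3 := hw p i j hp hpS
    have h4 := dvd_add (h1.mul_left (P : ℤ)) h3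
    have e : (P : ℤ) * ((X0 : ℤ) - w p i j) + (P * w p i j - (g i j - E i)) =
        ((P * X0 + E i : ℕ) : ℤ) - g i j := by push_cast; ring
    rwa [e] at h4
  -- the final numbers
  obtain ⟨x, hx⟩ : ∃ x : Fin k → ℕ, x = fun i : Fin k => P * X0 + E i := ⟨_, rfl⟩
  obtain ⟨z, hz⟩ : ∃ z : Fin k → ℕ, z = fun j : Fin k => Q * X0 + F j := ⟨_, rfl⟩
  have hxe : ∀ i, x i = P * X0 + E i := fun i => by rw [hx]
  have hze : ∀ j, z j = Q * X0 + F j := fun i => by rw [hz]
  have hxpos : ∀ i, 0 < x i := fun i => by rw [hxe]; have := Nat.mul_le_mul hP hX1; omega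
  have hzpos : ∀ j, 0 < z j := fun i => by rw [hze]; have := Nat.mul_le_mul hQ hX1; omega
  have hzx : ∀ i j, P * z j = Q * x i + δ * g i j := by
    intro i j
    have := hg i j
    rw [hxe, hze]
    calc P * (Q * X0 + F j) = P * Q * X0 + P * F j := by ring
      _ = _ := by rw [this]; ring
  have hzxz : ∀ i j, (P : ℤ) * z j = Q * x i + δ * g i j := by
    intro i j
    exact_mod_cast hzx i j
  have hPQz : (P : ℤ) = Q + δ := by exact_mod_cast hPQ
  have hxΛ : ∀ i, (Λ : ℤ) ∣ (x i : ℤ) - 1 := by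
    intro i
    have h4 : (Λ : ℤ) ∣ (E i : ℤ) - 1 :=
      Dvd.dvd.trans (by push_cast; exact ⟨δ * P, by ring⟩) (hEb i)
    have h5 := dvd_add (hXΛ.mul_left (P : ℤ)) h4
    have e : (P : ℤ) * X0 + (E i - 1) = (x i : ℤ) - 1 := by rw [hxe]; push_cast; ring
    rwa [e] at h5
  have hzΛ : ∀ i, (Λ : ℤ) ∣ (z i : ℤ) - 1 := by
    intro i
    have h4 : (Λ : ℤ) ∣ (F i : ℤ) - 1 :=
      Dvd.dvd.trans (by push_cast; exact ⟨δ, by ring⟩) (hFb i)
    have h5 := dvd_add (hXΛ.mul_left (Q : ℤ)) h4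
    have e : (Q : ℤ) * X0 + (F i - 1) = (z i : ℤ) - 1 := by rw [hze]; push_cast; ring
    rwa [e] at h5
  have hnot1 : ∀ (p : ℕ), p.Prime → ¬ (p : ℤ) ∣ 1 := by
    intro p hp h
    have : p ∣ 1 := by exact_mod_cast h
    exact hp.one_lt.ne' (Nat.dvd_one.1 this)
  -- primes of Λ
  have hΛnd : ∀ p : ℕ, p.Prime → p ∣ Λ → ∀ v : ℕ, (Λ : ℤ) ∣ (v : ℤ) - 1 → ¬ p ∣ v := by
    intro p hp hpΛ v hv h
    have h1 : (p : ℤ) ∣ (v : ℤ) - 1 := Dvd.dvd.trans (by exact_mod_cast hpΛ) hv
    have h2 : (p : ℤ) ∣ (v : ℤ) := by exact_mod_cast h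
    have h3 := dvd_sub h2 h1
    rw [sub_sub_cancel] at h3
    exact hnot1 p hp h3
  -- valuations at the primes of the gadget
  have haEℓ : ∀ (i : Fin k) (y : κ), aE i (ℓ y) =
      if s y = i then ((ℓ y : ℕ) : ℤ) ^ (α y) else 1 := by
    intro i y
    rw [haE]
    simp only
    by_cases h : s y = i
    · have hex : ∃ y', ℓ y' = ℓ y ∧ (s y' : ℕ) = i := ⟨y, rfl, by rw [h]⟩
      rw [if_pos h, dif_pos hex, hℓinj hex.choose_spec.1]
    · rw [if_neg h, dif_neg]
      rintro ⟨y', h1, h2⟩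
      rw [hℓinj h1] at h2
      exact h (Fin.ext h2)
  have haFℓ : ∀ (j : Fin k) (y : κ), aF j (ℓ y) =
      P * if t y = j then ((ℓ y : ℕ) : ℤ) ^ (β y) else 1 := by
    intro j y
    rw [haF]
    simp only
    by_cases h : t y = j
    · have hex : ∃ y', ℓ y' = ℓ y ∧ (t y' : ℕ) = j := ⟨y, rfl, by rw [h]⟩
      rw [if_pos h, dif_pos hex, hℓinj hex.choose_spec.1]
    · rw [if_neg h, dif_neg]
      rintro ⟨y', h1, h2⟩
      rw [hℓinj h1] at h2
      exact h (Fin.ext h2)
  have hxℓ : ∀ (i : Fin k) (y : κ), ((ℓ y : ℕ) : ℤ) ^ N ∣ (x i : ℤ) -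
      if s y = i then ((ℓ y : ℕ) : ℤ) ^ (α y) else 1 := by
    intro i y
    have h1 := (hE1 i i.isLt).2 (ℓ y) (hmemℓ y)
    rw [haEℓ] at h1
    have h2 := hXS0 (ℓ y) (hmemℓ y)
    have e : ∀ w : ℤ, (x i : ℤ) - w = P * X0 + (E i - w) := by
      intro w; rw [hxe]; push_cast; ring
    rw [e]
    exact dvd_add (h2.mul_left _) h1
  have hGℓ : ∀ (j : Fin k) (y : κ), ((ℓ y : ℕ) : ℤ) ^ N ∣ (G j : ℤ) -
      P * if t y = j then ((ℓ y : ℕ) : ℤ) ^ (β y) else 1 := by
    intro j y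
    have h1 := (hG1 j j.isLt).2 (ℓ y) (hmemℓ y)
    rwa [haFℓ] at h1
  have hpowcop : ∀ (y : κ) (D : ℕ), D ∣ Λ → ∀ v : ℤ, ((ℓ y : ℕ) : ℤ) ^ N ∣ (D : ℤ) * v →
      ((ℓ y : ℕ) : ℤ) ^ N ∣ v := by
    intro y D hD v h
    have h1 : IsCoprime (((ℓ y : ℕ) : ℤ) ^ N) (D : ℤ) := by
      apply IsCoprime.pow_left
      rw [Nat.isCoprime_iff_coprime]
      exact (Nat.Prime.coprime_iff_not_dvd (hℓp y)).2 (hℓnd y D hD)
    exact h1.dvd_of_dvd_mul_left h
  have hzℓ : ∀ (j : Fin k) (y : κ), ((ℓ y : ℕ) : ℤ) ^ N ∣ (z j : ℤ) -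
      if t y = j then ((ℓ y : ℕ) : ℤ) ^ (β y) else 1 := by
    intro j y
    have h1 := hGℓ j y
    have h2 := hXS0 (ℓ y) (hmemℓ y)
    have e1 : ∀ w : ℤ, (G j : ℤ) - P * w = P * (F j - w) := by
      intro w; rw [hF j]; push_cast; ring
    rw [e1] at h1
    have h3 := hpowcop y P hPΛ _ h1
    have e : ∀ w : ℤ, (z j : ℤ) - w = Q * X0 + (F j - w) := by
      intro w; rw [hze]; push_cast; ring
    rw [e]
    exact dvd_add (h2.mul_left _) h3
  have hvx : ∀ (i : Fin k) (y : κ), (x i).factorization (ℓ y) = if s y = i then α y else 0 := by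
    intro i y
    have h1 := hxℓ i y
    split_ifs at h1 ⊢ with h
    · refine fact_of_dvd (u := 1) (hℓp y) (hxpos i).ne' (hnot1 _ (hℓp y)) ?_
      rw [mul_one]
      exact (pow_dvd_pow _ (hNαβ y).1).trans h1
    · refine fact_of_dvd (u := 1) (hℓp y) (hxpos i).ne' (hnot1 _ (hℓp y)) ?_
      rw [mul_one, pow_zero]
      exact (pow_dvd_pow _ (by omega)).trans h1
  have hvz : ∀ (j : Fin k) (y : κ), (z j).factorization (ℓ y) = if t y = j then β y else 0 := by
    intro j y
    have h1 := hzℓ j y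
    split_ifs at h1 ⊢ with h
    · refine fact_of_dvd (u := 1) (hℓp y) (hzpos j).ne' (hnot1 _ (hℓp y)) ?_
      rw [mul_one]
      exact (pow_dvd_pow _ (hNαβ y).2).trans h1
    · refine fact_of_dvd (u := 1) (hℓp y) (hzpos j).ne' (hnot1 _ (hℓp y)) ?_
      rw [mul_one, pow_zero]
      exact (pow_dvd_pow _ (by omega)).trans h1
  have hδg : ∀ i j, δ * g i j ≠ 0 := fun i j => mul_ne_zero (by omega) (hgpos i j).ne'
  have hvg2 : ∀ (i j : Fin k) (y : κ), (δ * g i j).factorization (ℓ y) =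
      (g i j).factorization (ℓ y) := by
    intro i j y
    rw [Nat.factorization_mul (by omega) (hgpos i j).ne', Finsupp.add_apply,
      Nat.factorization_eq_zero_of_not_dvd (hℓnd y δ hδΛ), zero_add]
  have hvg : ∀ (i j : Fin k) (y : κ), (g i j).factorization (ℓ y) =
      if s y = i ∧ t y = j then min (α y) (β y) else 0 := by
    intro i j y
    rw [← hvg2 i j y]
    have h1 := (hE1 i i.isLt).2 (ℓ y) (hmemℓ y)
    rw [haEℓ] at h1
    have h2 := hGℓ j y
    have h3 := dvd_sub h2 (h1.mul_left (Q : ℤ))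
    have e : ∀ a b : ℤ, (G j : ℤ) - P * a - Q * (E i - b) =
        ((δ * g i j : ℕ) : ℤ) - (P * a - Q * b) := by
      intro a b
      have := hgG i j
      push_cast at this ⊢
      linear_combination this
    rw [e] at h3
    have hpz : Prime ((ℓ y : ℕ) : ℤ) := Nat.prime_iff_prime_int.1 (hℓp y)
    have hPnd : ¬ ((ℓ y : ℕ) : ℤ) ∣ (P : ℤ) := fun h => hℓnd y P hPΛ (by exact_mod_cast h)
    have hQnd : ¬ ((ℓ y : ℕ) : ℤ) ∣ (Q : ℤ) := fun h => hℓnd y Q hQΛ (by exact_mod_cast h)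
    have hδnd : ¬ ((ℓ y : ℕ) : ℤ) ∣ (δ : ℤ) := fun h => hℓnd y δ hδΛ (by exact_mod_cast h)
    by_cases hs : s y = i
    · by_cases ht : t y = j
      · rw [if_pos ⟨hs, ht⟩]
        rw [if_pos hs, if_pos ht] at h3
        rcases lt_or_gt_of_ne (hαβ y) with hlt | hlt
        · rw [min_eq_left hlt.le]
          refine fact_of_dvd (u := P * ((ℓ y : ℕ) : ℤ) ^ (β y - α y) - Q) (hℓp y) (hδg i j) ?_ ?_
          · intro h
            apply hQnd
            have h4 : ((ℓ y : ℕ) : ℤ) ∣ P * ((ℓ y : ℕ) : ℤ) ^ (β y - α y) :=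
              Dvd.dvd.mul_left (dvd_pow_self _ (by omega)) _
            have h5 := dvd_sub h4 h
            rwa [sub_sub_cancel] at h5
          · refine (pow_dvd_pow _ (hNαβ y).1).trans (h3.trans (dvd_of_eq ?_))
            have : ((ℓ y : ℕ) : ℤ) ^ (β y) = ((ℓ y : ℕ) : ℤ) ^ (α y) *
                ((ℓ y : ℕ) : ℤ) ^ (β y - α y) := by
              rw [← pow_add]; congr 1; omega
            rw [this]; ring
        · rw [min_eq_right hlt.le]
          refine fact_of_dvd (u := P - Q * ((ℓ y : ℕ) : ℤ) ^ (α y - β y)) (hℓp y) (hδg i j) ?_ ?_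
          · intro h
            apply hPnd
            have h4 : ((ℓ y : ℕ) : ℤ) ∣ Q * ((ℓ y : ℕ) : ℤ) ^ (α y - β y) :=
              Dvd.dvd.mul_left (dvd_pow_self _ (by omega)) _
            have h5 := dvd_add h h4
            rwa [sub_add_cancel] at h5
          · refine (pow_dvd_pow _ (hNαβ y).2).trans (h3.trans (dvd_of_eq ?_))
            have : ((ℓ y : ℕ) : ℤ) ^ (α y) = ((ℓ y : ℕ) : ℤ) ^ (β y) *
                ((ℓ y : ℕ) : ℤ) ^ (α y - β y) := by
              rw [← pow_add]; congr 1; omega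
            rw [this]; ring
      · rw [if_neg (fun h => ht h.2)]
        rw [if_pos hs, if_neg ht] at h3
        refine fact_of_dvd (u := P * 1 - Q * ((ℓ y : ℕ) : ℤ) ^ (α y)) (hℓp y) (hδg i j) ?_ ?_
        · intro h
          apply hPnd
          have h4 : ((ℓ y : ℕ) : ℤ) ∣ Q * ((ℓ y : ℕ) : ℤ) ^ (α y) :=
            Dvd.dvd.mul_left (dvd_pow_self _ (by have := hα y; omega)) _
          have h5 := dvd_add h h4
          rwa [sub_add_cancel, mul_one] at h5
        · refine (pow_dvd_pow _ (by omega)).trans (h3.trans (dvd_of_eq ?_))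
          ring
    · rw [if_neg (fun h => hs h.1)]
      rw [if_neg hs] at h3
      split_ifs at h3 with ht
      · refine fact_of_dvd (u := P * ((ℓ y : ℕ) : ℤ) ^ (β y) - Q * 1) (hℓp y) (hδg i j) ?_ ?_
        · intro h
          apply hQnd
          have h4 : ((ℓ y : ℕ) : ℤ) ∣ P * ((ℓ y : ℕ) : ℤ) ^ (β y) :=
            Dvd.dvd.mul_left (dvd_pow_self _ (by have := hβ y; omega)) _
          have h5 := dvd_sub h4 h
          rwa [sub_sub_cancel, mul_one] at h5
        · refine (pow_dvd_pow _ (by omega)).trans (h3.trans (dvd_of_eq ?_))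
          ring
      · refine fact_of_dvd (u := P * 1 - Q * 1) (hℓp y) (hδg i j) ?_ ?_
        · intro h
          apply hδnd
          have : (P : ℤ) * 1 - Q * 1 = δ := by rw [hPQz]; ring
          rwa [this] at h
        · refine (pow_dvd_pow _ (by omega)).trans (h3.trans (dvd_of_eq ?_))
          ring
  -- valuations at the other primes
  have hother : ∀ p : ℕ, p.Prime → p ∉ S0 → ∀ i j, p ∣ g i j →
      (x i).factorization p = (g i j).factorization p ∧
        (z j).factorization p = (g i j).factorization p ∧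
        (p : ℤ) ^ N2 ∣ (z j : ℤ) - g i j := by
    intro p hp hpS i j hpg
    have h1 := hXg p hp hpS i j hpg
    rw [← hxe] at h1
    have hpos := hgpos i j
    have h2 : (p : ℤ) ^ N2 ∣ (z j : ℤ) - g i j := by
      have h3 : (p : ℤ) ^ N2 ∣ (P : ℤ) * (z j - g i j) := by
        have h4 := h1.mul_left (Q : ℤ)
        have e : (Q : ℤ) * ((x i : ℤ) - g i j) = P * (z j - g i j) := by
          have := hzxz i j
          linear_combination (-1 : ℤ) * this + (g i j : ℤ) * hPQz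
        rwa [e] at h4
      have h5 : IsCoprime ((p : ℤ) ^ N2) (P : ℤ) := by
        apply IsCoprime.pow_left
        rw [Nat.isCoprime_iff_coprime]
        exact (Nat.Prime.coprime_iff_not_dvd hp).2 (hnd p hp hpS P hPΛ)
      exact h5.dvd_of_dvd_mul_left h3
    obtain ⟨v, hv⟩ : ∃ v, v = (g i j).factorization p := ⟨_, rfl⟩
    obtain ⟨u, hu⟩ : ∃ u, g i j = p ^ v * u := by rw [hv]; exact Nat.ordProj_dvd (g i j) p
    have hpu : ¬ p ∣ u := by
      intro h
      have h2 : p ^ (v + 1) ∣ g i j := by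
        rw [hu, pow_succ]
        exact mul_dvd_mul_left _ h
      have := (hp.pow_dvd_iff_le_factorization hpos.ne').1 h2
      omega
    have hvN : v + 1 ≤ N2 := by
      have h2 : v < g i j := by rw [hv]; exact Nat.factorization_lt p hpos.ne'
      have h3 := hN2g i j
      omega
    have hpu' : ¬ (p : ℤ) ∣ (u : ℤ) := by exact_mod_cast hpu
    have hgu : (g i j : ℤ) = (p : ℤ) ^ v * u := by exact_mod_cast hu
    rw [← hv]
    refine ⟨?_, ?_, h2⟩
    · refine fact_of_dvd (u := (u : ℤ)) hp (hxpos i).ne' hpu' ?_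
      rw [← hgu]
      exact (pow_dvd_pow _ hvN).trans h1
    · refine fact_of_dvd (u := (u : ℤ)) hp (hzpos j).ne' hpu' ?_
      rw [← hgu]
      exact (pow_dvd_pow _ hvN).trans h2
  -- divisibility
  have hcase : ∀ p : ℕ, p.Prime → ∀ i j, p ∣ g i j → p ∉ S0 ∨ ∃ y, ℓ y = p := by
    intro p hp i j hpg
    by_cases hpS : p ∈ S0
    · rcases hS0c p hpS with h | h
      · exact absurd hpg (hΛnd p hp h _ (hgΛ i j))
      · exact Or.inr h
    · exact Or.inl hpS
  have hgx : ∀ i j, g i j ∣ x i := by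
    intro i j
    rw [← Nat.factorization_prime_le_iff_dvd (hgpos i j).ne' (hxpos i).ne']
    intro p hp
    by_cases hpg : p ∣ g i j
    · rcases hcase p hp i j hpg with hpS | ⟨y, rfl⟩
      · exact (hother p hp hpS i j hpg).1.ge
      · rw [hvg, hvx]
        by_cases h : s y = i ∧ t y = j
        · rw [if_pos h, if_pos h.1]; exact min_le_left _ _
        · rw [if_neg h]; exact Nat.zero_le _
    · rw [Nat.factorization_eq_zero_of_not_dvd hpg]
      exact Nat.zero_le _
  have hgzd : ∀ i j, g i j ∣ z j := by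
    intro i j
    rw [← Nat.factorization_prime_le_iff_dvd (hgpos i j).ne' (hzpos j).ne']
    intro p hp
    by_cases hpg : p ∣ g i j
    · rcases hcase p hp i j hpg with hpS | ⟨y, rfl⟩
      · exact (hother p hp hpS i j hpg).2.1.ge
      · rw [hvg, hvz]
        by_cases h : s y = i ∧ t y = j
        · rw [if_pos h, if_pos h.2]; exact min_le_right _ _
        · rw [if_neg h]; exact Nat.zero_le _
    · rw [Nat.factorization_eq_zero_of_not_dvd hpg]
      exact Nat.zero_le _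
  have hElts : ∀ i i' : Fin k, E i = E i' → i = i' := by
    intro i i' h
    rcases lt_trichotomy (i : ℕ) i' with h1 | h1 | h1
    · have := hElt i' i'.isLt i h1
      omega
    · exact Fin.ext h1
    · have := hElt i i.isLt i' h1
      omega
  have hFlts : ∀ i i' : Fin k, F i = F i' → i = i' := by
    intro i i' h
    have h0 : G i = G i' := by rw [hF i, hF i', h]
    rcases lt_trichotomy (i : ℕ) i' with h1 | h1 | h1
    · have := (hG3 i' i'.isLt i h1).1
      omega
    · exact Fin.ext h1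
    · have := (hG3 i i.isLt i' h1).1
      omega
  refine ⟨x, z, g, hxpos, hzpos, ?_, ?_, hzx, hgpos, hgx, hgzd, hxΛ, hzΛ, hgΛ, ?_, ?_⟩
  · intro i i' h
    rw [hxe, hxe] at h
    exact hElts i i' (by omega)
  · intro i i' h
    rw [hze, hze] at h
    exact hFlts i i' (by omega)
  · intro i j p hp hpx hpz
    have hpg : p ∣ g i j := by
      have h1 : p ∣ δ * g i j := by
        have h2 : p ∣ P * z j := hpz.mul_left _
        rw [hzx i j] at h2
        exact (Nat.dvd_add_right (hpx.mul_left Q)).1 h2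
      rcases (Nat.Prime.dvd_mul hp).1 h1 with h2 | h2
      · exact absurd hpx (hΛnd p hp (h2.trans hδΛ) _ (hxΛ i))
      · exact h2
    refine ⟨hpg, ?_⟩
    rcases hcase p hp i j hpg with hpS | ⟨y, rfl⟩
    · right; right
      have h2 := (hother p hp hpS i j hpg).2.2
      obtain ⟨q, hq⟩ := hgzd i j
      rw [hq, Nat.mul_div_cancel_left _ (hgpos i j)]
      rw [hq] at h2
      obtain ⟨v, hv⟩ : ∃ v, v = (g i j).factorization p := ⟨_, rfl⟩
      obtain ⟨u, hu⟩ : ∃ u, g i j = p ^ v * u := by rw [hv]; exact Nat.ordProj_dvd (g i j) p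
      have hpu : ¬ p ∣ u := by
        intro h
        have h2 : p ^ (v + 1) ∣ g i j := by
          rw [hu, pow_succ]
          exact mul_dvd_mul_left _ h
        have := (hp.pow_dvd_iff_le_factorization (hgpos i j).ne').1 h2
        omega
      have hvN : v + 1 ≤ N2 := by
        have h2 : v < g i j := by rw [hv]; exact Nat.factorization_lt p (hgpos i j).ne'
        have h3 := hN2g i j
        omega
      have h3 : (p : ℤ) ^ (v + 1) ∣ (p : ℤ) ^ v * (u * ((q : ℤ) - 1)) := by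
        refine (pow_dvd_pow _ hvN).trans (h2.trans (dvd_of_eq ?_))
        have : (g i j : ℤ) = (p : ℤ) ^ v * u := by exact_mod_cast hu
        push_cast
        rw [this]; ring
      rw [pow_succ] at h3
      have h4 := (mul_dvd_mul_iff_left (pow_ne_zero v (by exact_mod_cast hp.ne_zero :
        (p : ℤ) ≠ 0))).1 h3
      rcases (Nat.prime_iff_prime_int.1 hp).dvd_or_dvd h4 with h5 | h5
      · exact absurd (by exact_mod_cast h5) hpu
      · exact h5
    · have h1 := hvx i y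
      have h2 := hvz j y
      have h3 := hvg i j y
      have hx1 := (hp.dvd_iff_one_le_factorization (hxpos i).ne').1 hpx
      have hz1 := (hp.dvd_iff_one_le_factorization (hzpos j).ne').1 hpz
      have hs : s y = i := by
        by_contra h
        rw [h1, if_neg h] at hx1
        omega
      have ht : t y = j := by
        by_contra h
        rw [h2, if_neg h] at hz1
        omega
      rw [if_pos hs] at h1
      rw [if_pos ht] at h2
      rw [if_pos ⟨hs, ht⟩] at h3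
      have hq0 : x i / g i j ≠ 0 := (Nat.div_pos (Nat.le_of_dvd (hxpos i) (hgx i j)) (hgpos i j)).ne'
      have hq1 : z j / g i j ≠ 0 := (Nat.div_pos (Nat.le_of_dvd (hzpos j) (hgzd i j)) (hgpos i j)).ne'
      rcases lt_or_gt_of_ne (hαβ y) with hlt | hlt
      · right; left
        rw [hp.dvd_iff_one_le_factorization hq1, Nat.factorization_div (hgzd i j),
          Finsupp.tsub_apply, h2, h3, min_eq_left hlt.le]
        omega
      · left
        rw [hp.dvd_iff_one_le_factorization hq0, Nat.factorization_div (hgx i j),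
          Finsupp.tsub_apply, h1, h3, min_eq_right hlt.le]
        omega
  · intro Γ _ f h0 i j
    set 𝒯 : Finset ℕ := ((x i) * z j).primeFactors \ univ.image ℓ with h𝒯
    have hbig0 : (x i) * z j ≠ 0 := mul_ne_zero (hxpos i).ne' (hzpos j).ne'
    have hdisj : Disjoint 𝒯 (univ.image ℓ) := by
      rw [h𝒯]
      exact sdiff_disjoint
    have hcov : ∀ n : ℕ, n ∣ (x i) * z j → n.primeFactors ⊆ 𝒯 ∪ univ.image ℓ := by
      intro n hn p hp
      rw [mem_union, h𝒯, mem_sdiff]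
      by_cases h : p ∈ univ.image ℓ
      · exact Or.inr h
      · exact Or.inl ⟨Nat.primeFactors_mono hn hbig0 hp, h⟩
    have hdiv : ∀ n : ℕ, n ∣ (x i) * z j → Fm f n =
        (∏ p ∈ 𝒯, f (n.factorization p)) * ∏ y : κ, f (n.factorization (ℓ y)) := by
      intro n hn
      rw [Fm_prod h0 (hcov n hn), prod_union hdisj, prod_image (fun a _ b _ h => hℓinj h)]
    rw [hdiv _ ((Nat.div_dvd_of_dvd (hgzd i j)).trans (dvd_mul_left _ _)),
      hdiv _ ((Nat.div_dvd_of_dvd (hgx i j)).trans (dvd_mul_right _ _)),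
      hdiv (x i) (dvd_mul_right _ _), hdiv (z j) (dvd_mul_left _ _),
      Nat.factorization_div (hgzd i j), Nat.factorization_div (hgx i j)]
    simp only [Finsupp.tsub_apply]
    have h1 : ∀ p ∈ 𝒯, f ((z j).factorization p - (g i j).factorization p) *
        f ((x i).factorization p) = f ((x i).factorization p - (g i j).factorization p) *
        f ((z j).factorization p) := by
      intro p hp
      rw [h𝒯, mem_sdiff] at hp
      have hpp := Nat.prime_of_mem_primeFactors hp.1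
      by_cases hpg : p ∣ g i j
      · rcases hcase p hpp i j hpg with hpS | ⟨y, hy⟩
        · obtain ⟨h2, h3, -⟩ := hother p hpp hpS i j hpg
          rw [h2, h3]
        · exact absurd (mem_image.2 ⟨y, mem_univ _, hy⟩) hp.2
      · rw [Nat.factorization_eq_zero_of_not_dvd hpg]
        simp only [Nat.sub_zero]
        exact mul_comm _ _
    have h2 : ∀ y : κ, f ((z j).factorization (ℓ y) - (g i j).factorization (ℓ y)) *
        f ((x i).factorization (ℓ y)) *
        (if s y = i ∧ t y = j then f (α y - β y) * f (β y) else 1) =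
        f ((x i).factorization (ℓ y) - (g i j).factorization (ℓ y)) *
        f ((z j).factorization (ℓ y)) *
        (if s y = i ∧ t y = j then f (β y - α y) * f (α y) else 1) := by
      intro y
      rw [hvx, hvz, hvg]
      by_cases hs : s y = i
      · by_cases ht : t y = j
        · rw [if_pos hs, if_pos ht, if_pos ⟨hs, ht⟩, if_pos ⟨hs, ht⟩, if_pos ⟨hs, ht⟩]
          have e1 : β y - min (α y) (β y) = β y - α y := by omega
          have e2 : α y - min (α y) (β y) = α y - β y := by omega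
          rw [e1, e2]
          calc _ = (f (β y - α y) * f (α y)) * (f (α y - β y) * f (β y)) := rfl
            _ = _ := mul_comm _ _
        · rw [if_pos hs, if_neg ht, if_neg (fun h => ht h.2), if_neg (fun h => ht h.2),
            if_neg (fun h => ht h.2)]
          simp only [Nat.sub_zero, h0, one_mul, mul_one]
      · by_cases ht : t y = j
        · rw [if_neg hs, if_pos ht, if_neg (fun h => hs h.1), if_neg (fun h => hs h.1),
            if_neg (fun h => hs h.1)]
          simp only [Nat.sub_zero, h0, one_mul, mul_one]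
        · rw [if_neg hs, if_neg ht, if_neg (fun h => hs h.1), if_neg (fun h => hs h.1),
            if_neg (fun h => hs h.1)]
    have h3 := prod_congr rfl h1
    have h4 := prod_congr (rfl : (univ : Finset κ) = univ) (fun y _ => h2 y)
    rw [prod_mul_distrib, prod_mul_distrib] at h3
    rw [prod_mul_distrib, prod_mul_distrib, prod_mul_distrib, prod_mul_distrib] at h4
    generalize (∏ p ∈ 𝒯, f ((z j).factorization p - (g i j).factorization p)) = a1 at h3 ⊢
    generalize (∏ p ∈ 𝒯, f ((x i).factorization p)) = a2 at h3 ⊢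
    generalize (∏ p ∈ 𝒯, f ((x i).factorization p - (g i j).factorization p)) = a3 at h3 ⊢
    generalize (∏ p ∈ 𝒯, f ((z j).factorization p)) = a4 at h3 ⊢
    generalize (∏ y, f ((z j).factorization (ℓ y) - (g i j).factorization (ℓ y))) = b1 at h4 ⊢
    generalize (∏ y, f ((x i).factorization (ℓ y))) = b2 at h4 ⊢
    generalize (∏ y, f ((x i).factorization (ℓ y) - (g i j).factorization (ℓ y))) = b3 at h4 ⊢
    generalize (∏ y, f ((z j).factorization (ℓ y))) = b4 at h4 ⊢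
    generalize (∏ y : κ, (if s y = i ∧ t y = j then f (α y - β y) * f (β y) else 1)) = b5 at h4 ⊢
    generalize (∏ y : κ, (if s y = i ∧ t y = j then f (β y - α y) * f (α y) else 1)) = b6 at h4 ⊢
    calc a1 * b1 * (a2 * b2) * b5 = (a1 * a2) * (b1 * b2 * b5) := by
          rw [mul_mul_mul_comm, mul_assoc]
      _ = (a3 * a4) * (b3 * b4 * b6) := by rw [h3, h4]
      _ = a3 * b3 * (a4 * b4) * b6 := by
          rw [mul_mul_mul_comm a3 b3 a4 b4, mul_assoc (a3 * a4)]

end Pool.Agent.Y887.DK
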