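import Mathlib
import Pool.Agent.Y887.DK.Cons

/-!
Gadgets from a relation of weight one, and simple facts on prime independent multiplicative
functions.
-/

set_option autoImplicit false

namespace Pool.Agent.Y887.DK

open Finset Pool.Agent.Y887.TD

/-- effect of a list of pairs of exponents -/
def Gl {Γ : Type} [CommGroup Γ] (f : ℕ → Γ) (l : List (ℕ × ℕ)) : Γ :=
  (l.map (fun p => (f (p.2 - p.1) * f p.1) / (f (p.1 - p.2) * f p.2))).prod

/-- the pairs of exponents that can be used -/
def Vl (l : List (ℕ × ℕ)) : Prop := ∀ p ∈ l, 1 ≤ p.1 ∧ 1 ≤ p.2 ∧ p.1 ≠ p.2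

theorem Gl_append {Γ : Type} [CommGroup Γ] (f : ℕ → Γ) (l l' : List (ℕ × ℕ)) :
    Gl f (l ++ l') = Gl f l * Gl f l' := by
  unfold Gl
  rw [List.map_append, List.prod_append]

theorem Vl_append {l l' : List (ℕ × ℕ)} (h : Vl l) (h' : Vl l') : Vl (l ++ l') := by
  intro p hp
  rcases List.mem_append.1 hp with h1 | h1
  · exact h p h1
  · exact h' p h1

theorem Gl_swap {Γ : Type} [CommGroup Γ] (f : ℕ → Γ) (l : List (ℕ × ℕ)) :
    Gl f (l.map Prod.swap) = (Gl f l)⁻¹ := by
  induction l with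
  | nil => simp [Gl]
  | cons p l ih =>
    have h1 : Gl f (p :: l) = ((f (p.2 - p.1) * f p.1) / (f (p.1 - p.2) * f p.2)) * Gl f l := by
      simp [Gl]
    have h2 : Gl f ((p :: l).map Prod.swap) =
        ((f (p.1 - p.2) * f p.2) / (f (p.2 - p.1) * f p.1)) * Gl f (l.map Prod.swap) := by
      simp [Gl]
    rw [h2, ih, h1, mul_inv, inv_div]

theorem Vl_swap {l : List (ℕ × ℕ)} (h : Vl l) : Vl (l.map Prod.swap) := by
  intro p hp
  obtain ⟨q, hq, rfl⟩ := List.mem_map.1 hp
  obtain ⟨h1, h2, h3⟩ := h q hq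
  exact ⟨h2, h1, fun h4 => h3 h4.symm⟩

theorem unit_list {Γ : Type} [CommGroup Γ] (f : ℕ → Γ) (h0 : f 0 = 1) (k : ℕ) (hk : 1 ≤ k) :
    ∃ l, Vl l ∧ Gl f l = f 1 ^ k / f k := by
  induction k, hk using Nat.le_induction with
  | base => exact ⟨[], by simp [Vl], by simp [Gl]⟩
  | succ k hk ih =>
    obtain ⟨l, hl, hG⟩ := ih
    refine ⟨(1, k + 1) :: l, ?_, ?_⟩
    · intro p hp
      rcases List.mem_cons.1 hp with rfl | h
      · exact ⟨le_rfl, by omega, by simp only; omega⟩
      · exact hl p h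
    · have h1 : Gl f ((1, k + 1) :: l) =
          ((f (k + 1 - 1) * f 1) / (f (1 - (k + 1)) * f (k + 1))) * Gl f l := by
        simp [Gl]
      have h2 : 1 - (k + 1) = 0 := by omega
      have h3 : k + 1 - 1 = k := by omega
      rw [h1, hG, h2, h3, h0, one_mul, pow_succ, div_mul_div_comm, div_eq_div_iff_mul_eq_mul]
      ac_rfl

theorem list_of_mset {Γ : Type} [CommGroup Γ] (f : ℕ → Γ) (h0 : f 0 = 1) (u : Multiset ℕ)
    (hu : ∀ k ∈ u, 1 ≤ k) : ∃ l, Vl l ∧ Gl f l = f 1 ^ u.sum / (u.map f).prod := by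
  induction u using Multiset.induction_on with
  | empty => exact ⟨[], by simp [Vl], by simp [Gl]⟩
  | cons k u ih =>
    obtain ⟨l, hl, hG⟩ := ih (fun k hk => hu k (Multiset.mem_cons_of_mem hk))
    obtain ⟨l', hl', hG'⟩ := unit_list f h0 k (hu k (Multiset.mem_cons_self _ _))
    refine ⟨l' ++ l, Vl_append hl' hl, ?_⟩
    rw [Gl_append, hG, hG', Multiset.sum_cons, Multiset.map_cons, Multiset.prod_cons, pow_add,
      div_mul_div_comm]

/-- the gadget -/
theorem gadget {Γ : Type} [CommGroup Γ] (f : ℕ → Γ) (h0 : f 0 = 1) (u v : Multiset ℕ)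
    (hu : ∀ k ∈ u, 1 ≤ k) (hv : ∀ k ∈ v, 1 ≤ k) (hs : u.sum = v.sum + 1)
    (hp : (u.map f).prod = (v.map f).prod) :
    ∃ (w : ℕ) (α β : Fin w → ℕ), (∀ y, 1 ≤ α y) ∧ (∀ y, 1 ≤ β y) ∧ (∀ y, α y ≠ β y) ∧
      ∏ y, (f (β y - α y) * f (α y)) = f 1 * ∏ y, (f (α y - β y) * f (β y)) := by
  obtain ⟨l, hl, hG⟩ := list_of_mset f h0 u hu
  obtain ⟨l', hl', hG'⟩ := list_of_mset f h0 v hv
  set L := l ++ l'.map Prod.swap with hL
  have hV : Vl L := Vl_append hl (Vl_swap hl')
  have hGL : Gl f L = f 1 := by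
    rw [hL, Gl_append, Gl_swap, hG, hG', hs, hp, pow_succ]
    rw [inv_div, div_mul_div_comm, div_eq_iff_eq_mul]
    rw [mul_comm ((v.map f).prod)]
    ac_rfl
  refine ⟨L.length, fun y => (L.get y).1, fun y => (L.get y).2, fun y => (hV _ (L.get_mem y)).1,
    fun y => (hV _ (L.get_mem y)).2.1, fun y => (hV _ (L.get_mem y)).2.2, ?_⟩
  have h1 : (∏ y : Fin L.length, (f ((L.get y).2 - (L.get y).1) * f (L.get y).1)) /
      (∏ y : Fin L.length, (f ((L.get y).1 - (L.get y).2) * f (L.get y).2)) = f 1 := by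
    rw [← prod_div_distrib, ← hGL]
    unfold Gl
    rw [← List.prod_ofFn]
    congr 1
    conv_rhs => rw [← List.ofFn_get L]
    rw [List.map_ofFn]
    rfl
  rw [div_eq_iff_eq_mul] at h1
  exact h1

/-- elements of the group generated by the values are quotients of values -/
theorem closure_rep {Γ : Type} [CommGroup Γ] (f : ℕ → Γ) (γ : Γ)
    (hγ : γ ∈ Subgroup.closure (f '' {k | 1 ≤ k})) :
    ∃ U V : List ℕ, (∀ k ∈ U, 1 ≤ k) ∧ (∀ k ∈ V, 1 ≤ k) ∧
      (U.map f).prod = γ * (V.map f).prod := by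
  induction hγ using Subgroup.closure_induction with
  | mem x hx =>
    obtain ⟨k, hk, rfl⟩ := hx
    exact ⟨[k], [], by simpa using hk, by simp, by simp⟩
  | one => exact ⟨[], [], by simp, by simp, by simp⟩
  | mul x y _ _ hx hy =>
    obtain ⟨U, V, h1, h2, h3⟩ := hx
    obtain ⟨U', V', h1', h2', h3'⟩ := hy
    refine ⟨U ++ U', V ++ V', ?_, ?_, ?_⟩
    · intro k hk
      rcases List.mem_append.1 hk with h | h
      · exact h1 k h
      · exact h1' k h
    · intro k hk
      rcases List.mem_append.1 hk with h | h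
      · exact h2 k h
      · exact h2' k h
    · rw [List.map_append, List.prod_append, List.map_append, List.prod_append, h3, h3']
      ac_rfl
  | inv x _ hx =>
    obtain ⟨U, V, h1, h2, h3⟩ := hx
    refine ⟨V, U, h2, h1, ?_⟩
    rw [h3, inv_mul_cancel_left]

theorem Fm_one {Γ : Type} [CommMonoid Γ] (f : ℕ → Γ) : Fm f 1 = 1 := by
  simp [Fm]

theorem Fm_mul {Γ : Type} [CommMonoid Γ] (f : ℕ → Γ) {a b : ℕ} (ha : a ≠ 0) (hb : b ≠ 0)
    (hab : Nat.Coprime a b) : Fm f (a * b) = Fm f a * Fm f b := by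
  unfold Fm
  rw [Nat.Coprime.primeFactors_mul hab, prod_union hab.disjoint_primeFactors]
  have key : ∀ p ∈ a.primeFactors, b.factorization p = 0 := by
    intro p hp
    have h1 : p ∉ b.primeFactors := fun h => (disjoint_left.1 hab.disjoint_primeFactors) hp h
    rw [← Nat.support_factorization] at h1
    exact Finsupp.notMem_support_iff.1 h1
  have key' : ∀ p ∈ b.primeFactors, a.factorization p = 0 := by
    intro p hp
    have h1 : p ∉ a.primeFactors := fun h => (disjoint_left.1 hab.disjoint_primeFactors) h hp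
    rw [← Nat.support_factorization] at h1
    exact Finsupp.notMem_support_iff.1 h1
  congr 1
  · apply prod_congr rfl
    intro p hp
    rw [Nat.factorization_mul ha hb, Finsupp.add_apply, key p hp, add_zero]
  · apply prod_congr rfl
    intro p hp
    rw [Nat.factorization_mul ha hb, Finsupp.add_apply, key' p hp, zero_add]

theorem Fm_pow {Γ : Type} [CommMonoid Γ] (f : ℕ → Γ) {p e : ℕ} (hp : p.Prime) (he : 1 ≤ e) :
    Fm f (p ^ e) = f e := by
  unfold Fm
  rw [Nat.primeFactors_prime_pow (by omega) hp, prod_singleton, hp.factorization_pow]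
  simp

theorem Fm_sqfree {Γ : Type} [CommMonoid Γ] (f : ℕ → Γ) {n : ℕ} (hn : Squarefree n) :
    Fm f n = f 1 ^ n.primeFactors.card := by
  unfold Fm
  rw [prod_congr rfl (g := fun _ => f 1), prod_const]
  intro p hp
  have h1 := hn.natFactorization_le_one p
  have h2 : 0 < n.factorization p := by
    rw [Nat.pos_iff_ne_zero, ← Finsupp.mem_support_iff, Nat.support_factorization]
    exact hp
  have : n.factorization p = 1 := by omega
  rw [this]

/-- the value of a product of distinct prime powers times a squarefree number prime to it -/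
theorem Fm_presc {Γ : Type} [CommMonoid Γ] (f : ℕ → Γ) {ι τ : Type} [Fintype τ] [DecidableEq ι]
    [DecidableEq τ]
    (φ : τ → ι) (h : ι) (r e : τ → ℕ) (hr : ∀ y, (r y).Prime) (hinj : Function.Injective r)
    (he : ∀ y, 1 ≤ e y) {F : ℕ} (hF : Squarefree F) (hrF : ∀ y, ¬ r y ∣ F) :
    Fm f ((∏ y, if φ y = h then r y ^ e y else 1) * F) =
      (∏ y, if φ y = h then f (e y) else 1) * f 1 ^ F.primeFactors.card := by
  have key : ∀ S : Finset τ, Nat.Coprime (∏ y ∈ S, if φ y = h then r y ^ e y else 1) F ∧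
      (∀ y ∉ S, ¬ r y ∣ ∏ y ∈ S, if φ y = h then r y ^ e y else 1) ∧
      (∏ y ∈ S, if φ y = h then r y ^ e y else 1) ≠ 0 ∧
      Fm f (∏ y ∈ S, if φ y = h then r y ^ e y else 1) = ∏ y ∈ S, if φ y = h then f (e y) else 1 := by
    intro S
    induction S using Finset.induction_on with
    | empty =>
      refine ⟨by simp, fun y _ hd => ?_, by simp, by simp [Fm_one]⟩
      rw [prod_empty] at hd
      exact (hr y).one_lt.ne' (Nat.dvd_one.1 hd)
    | insert y S hy ih =>
      obtain ⟨i1, i2, i3, i4⟩ := ih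
      rw [prod_insert hy, prod_insert hy]
      by_cases hφ : φ y = h
      · rw [if_pos hφ, if_pos hφ]
        refine ⟨?_, ?_, ?_, ?_⟩
        · exact Nat.Coprime.mul_left (Nat.Coprime.pow_left _
            ((Nat.Prime.coprime_iff_not_dvd (hr y)).2 (hrF y))) i1
        · intro y' hy' hd
          rw [mem_insert, not_or] at hy'
          rcases (Nat.Prime.dvd_mul (hr y')).1 hd with h1 | h1
          · have h2 := (Nat.prime_dvd_prime_iff_eq (hr y') (hr y)).1 ((hr y').dvd_of_dvd_pow h1)
            exact hy'.1 (hinj h2)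
          · exact i2 y' hy'.2 h1
        · exact mul_ne_zero (pow_ne_zero _ (hr y).ne_zero) i3
        · rw [Fm_mul f (pow_ne_zero _ (hr y).ne_zero) i3 (Nat.Coprime.pow_left _
            ((Nat.Prime.coprime_iff_not_dvd (hr y)).2 (i2 y hy))), Fm_pow f (hr y) (he y), i4]
      · rw [if_neg hφ, if_neg hφ, one_mul, one_mul]
        exact ⟨i1, fun y' hy' => i2 y' (fun h' => hy' (mem_insert_of_mem h')), i3, i4⟩
  obtain ⟨i1, -, i3, i4⟩ := key univ
  rw [Fm_mul f i3 hF.ne_zero i1, i4, Fm_sqfree f hF]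

theorem Om_presc {ι τ : Type} [Fintype τ] [DecidableEq ι] [DecidableEq τ]
    (φ : τ → ι) (h : ι) (r e : τ → ℕ) (hr : ∀ y, (r y).Prime) {F : ℕ} (hF : Squarefree F) :
    ArithmeticFunction.cardFactors ((∏ y, if φ y = h then r y ^ e y else 1) * F) ≤
      (∑ y, e y) + F.primeFactors.card := by
  have key : ∀ S : Finset τ, (∏ y ∈ S, if φ y = h then r y ^ e y else 1) ≠ 0 ∧
      ArithmeticFunction.cardFactors (∏ y ∈ S, if φ y = h then r y ^ e y else 1) ≤ ∑ y ∈ S, e y := by
    intro S
    induction S using Finset.induction_on with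
    | empty => simp
    | insert y S hy ih =>
      obtain ⟨i1, i2⟩ := ih
      rw [prod_insert hy, sum_insert hy]
      have h0 : (if φ y = h then r y ^ e y else 1) ≠ 0 := by
        split_ifs
        · exact pow_ne_zero _ (hr y).ne_zero
        · exact one_ne_zero
      refine ⟨mul_ne_zero h0 i1, ?_⟩
      rw [ArithmeticFunction.cardFactors_mul h0 i1]
      have h1 : ArithmeticFunction.cardFactors (if φ y = h then r y ^ e y else 1) ≤ e y := by
        split_ifs
        · rw [ArithmeticFunction.cardFactors_apply_prime_pow (hr y)]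
        · simp
      omega
  obtain ⟨i1, i2⟩ := key univ
  rw [ArithmeticFunction.cardFactors_mul i1 hF.ne_zero]
  have h2 : ArithmeticFunction.cardFactors F = F.primeFactors.card := by
    have h3 := (ArithmeticFunction.cardDistinctFactors_eq_cardFactors_iff_squarefree hF.ne_zero).2 hF
    rw [← h3, ArithmeticFunction.cardDistinctFactors_apply]
    rfl
  omega

theorem cardFactors_le {n : ℕ} (hn : n ≠ 0) : ArithmeticFunction.cardFactors n ≤ n := by
  have h1 : 2 ^ ArithmeticFunction.cardFactors n ≤ n := by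
    have h2 : 2 ^ n.primeFactorsList.length ≤ n.primeFactorsList.prod := by
      apply List.pow_card_le_prod
      intro p hp
      exact (Nat.prime_of_mem_primeFactorsList hp).two_le
    rw [Nat.prod_primeFactorsList hn] at h2
    exact h2
  exact (Nat.lt_two_pow_self).le.trans h1

/-- the product over the gadget copies -/
theorem prod_sigma_pow2 {Γ : Type} [CommMonoid Γ] {k w : ℕ} (c : Fin k → Fin k → ℕ)
    (g : Fin w → Γ) (i j : Fin k) :
    ∏ y : (Σ p : Fin k × Fin k, Fin (c p.1 p.2) × Fin w),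
      (if y.1.1 = i ∧ y.1.2 = j then g y.2.2 else 1) = (∏ y, g y) ^ (c i j) := by
  classical
  rw [Fintype.prod_sigma]
  rw [prod_eq_single (i, j)]
  · simp only [if_true, and_self]
    rw [Fintype.prod_prod_type]
    simp
  · rintro ⟨i', j'⟩ _ hne
    apply prod_eq_one
    intro m _
    rw [if_neg]
    rintro ⟨h1, h2⟩
    exact hne (Prod.ext h1 h2)
  · intro h
    exact absurd (mem_univ _) h

/-- the product over the prescribed exponents -/
theorem prod_sigma_list {Γ : Type} [CommMonoid Γ] {ι : Type} [Fintype ι] [DecidableEq ι]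
    (ex : ι → List ℕ) (f : ℕ → Γ) (h : ι) :
    ∏ y : (Σ h : ι, Fin (ex h).length), (if y.1 = h then f ((ex y.1).get y.2) else 1) =
      ((ex h).map f).prod := by
  rw [Fintype.prod_sigma, prod_eq_single h]
  · simp only [if_true]
    rw [← List.prod_ofFn]
    congr 1
    conv_rhs => rw [← List.ofFn_get (ex h)]
    rw [List.map_ofFn]
    rfl
  · intro h' _ hne
    apply prod_eq_one
    intro m _
    rw [if_neg hne]
  · intro h'
    exact absurd (mem_univ _) h'

theorem Fm_list (n : ℕ) :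
    ∃ l : List ℕ, (∀ k ∈ l, 1 ≤ k) ∧ ∀ {Δ : Type} [CommMonoid Δ] (g : ℕ → Δ),
      (l.map g).prod = Fm g n := by
  refine ⟨n.primeFactors.toList.map (fun p => n.factorization p), ?_, ?_⟩
  · intro k hk
    obtain ⟨p, hp, rfl⟩ := List.mem_map.1 hk
    rw [mem_toList] at hp
    have h2 : 0 < n.factorization p := by
      rw [Nat.pos_iff_ne_zero, ← Finsupp.mem_support_iff, Nat.support_factorization]
      exact hp
    exact h2
  · intro Δ _ g
    rw [List.map_map]
    unfold Fm
    exact Finset.prod_map_toList _ _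

end Pool.Agent.Y887.DK
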