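import Mathlib
import Pool.Agent.Y887.TD.ConsA
import Pool.Agent.Y887.TD.FormsTD

/-!
Linear forms `C h * n + D h` restricted to a progression on which they have prescribed prime powers
and no small prime factors.
-/

set_option autoImplicit false

namespace Pool.Agent.Y887.DK

open Finset Pool.Agent.Y887.TD

theorem avoid_roots {ι : Type} [Fintype ι] (C D : ι → ℕ)
    (hcop : ∀ h, Nat.Coprime (C h) (D h))
    (hsm : ∀ p : ℕ, p.Prime → p ≤ Fintype.card ι → ∀ h, p ∣ C h) (p : ℕ) (hp : p.Prime) :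
    ∃ w : ℤ, ∀ h, ¬ (p : ℤ) ∣ C h * w + D h := by
  classical
  have hnb : ∀ h, p ∣ C h → ∀ w : ℤ, ¬ (p : ℤ) ∣ C h * w + D h := by
    intro h hpC w hd
    have h1 : (p : ℤ) ∣ (D h : ℤ) := by
      have h2 : (p : ℤ) ∣ C h * w := Dvd.dvd.mul_right (by exact_mod_cast hpC) _
      exact (dvd_add_right h2).1 hd
    have h2 : p ∣ D h := by exact_mod_cast h1
    exact hp.one_lt.ne' (Nat.dvd_one.1 ((hcop h) ▸ Nat.dvd_gcd hpC h2))
  by_cases hpk : p ≤ Fintype.card ι
  · exact ⟨0, fun h => hnb h (hsm p hp hpk h) 0⟩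
  · push Not at hpk
    have h1 : ∀ h : ι, ∃ ρ : ℤ, ¬ p ∣ C h → (p : ℤ) ∣ C h * ρ + D h := by
      intro h
      by_cases hpC : p ∣ C h
      · exact ⟨0, fun h => absurd hpC h⟩
      · obtain ⟨w, hw⟩ := exists_inv (C h) p 1 hp hpC (-(D h : ℤ))
        refine ⟨w, fun _ => ?_⟩
        rw [pow_one, sub_neg_eq_add] at hw
        exact hw
    choose ρ hρ using h1
    obtain ⟨w, hw⟩ := avoid_class hp hpk (fun i => ρ ((Fintype.equivFin ι).symm i))
    refine ⟨w, fun h hd => ?_⟩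
    by_cases hpC : p ∣ C h
    · exact hnb h hpC w hd
    · have h2 := dvd_sub hd (hρ h hpC)
      have e : (C h : ℤ) * w + D h - (C h * ρ h + D h) = C h * (w - ρ h) := by ring
      rw [e] at h2
      rcases (Nat.prime_iff_prime_int.1 hp).dvd_or_dvd h2 with h3 | h3
      · exact hpC (by exact_mod_cast h3)
      · have := hw (Fintype.equivFin ι h)
        rw [Equiv.symm_apply_apply] at this
        exact this h3

set_option maxHeartbeats 1000000 in
theorem exists_forms2 {ι : Type} [Fintype ι] [DecidableEq ι] (C D : ι → ℕ) (hC : ∀ h, 1 ≤ C h)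
    (hD : ∀ h, 1 ≤ D h) (hcop : ∀ h, Nat.Coprime (C h) (D h))
    (hdet : ∀ h h', h ≠ h' → C h * D h' ≠ C h' * D h)
    (hsm : ∀ p : ℕ, p.Prime → p ≤ Fintype.card ι → ∀ h, p ∣ C h)
    {τ : Type} [Fintype τ] (φ : τ → ι) (e : τ → ℕ) (he : ∀ y, 1 ≤ e y) (T : ℕ)
    (hT : ∀ h h', C h * D h' ≤ T) (hCT : ∀ h, C h ≤ T) :
    ∃ (n0 E : ℕ) (r : τ → ℕ) (A B : ι → ℕ), 1 ≤ E ∧
      (∀ y, (r y).Prime) ∧ Function.Injective r ∧ (∀ y, T < r y) ∧
      (∀ h m, C h * (n0 + E * m) + D h = (∏ y, if φ y = h then r y ^ e y else 1) *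
        (A h * m + B h)) ∧
      (∀ h, 1 ≤ A h) ∧ (∀ h, 1 ≤ B h) ∧ (∀ h, Nat.Coprime (A h) (B h)) ∧ (∀ h, C h ∣ A h) ∧
      (∀ y h, r y ∣ A h) ∧
      ∀ p : ℕ, p.Prime → p ≤ T → ∀ h m, ¬ p ∣ C h * (n0 + E * m) + D h := by
  classical
  set r : τ → ℕ := fun y => Nat.nth Nat.Prime (T + (Fintype.equivFin τ y : ℕ)) with hr
  have hrp : ∀ y, (r y).Prime := fun y => Nat.prime_nth_prime _
  have hrinj : Function.Injective r := by
    intro y y' h
    have h1 := (Nat.nth_injective Nat.infinite_setOfPred_prime) h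
    have h2 : (Fintype.equivFin τ y : ℕ) = Fintype.equivFin τ y' := by omega
    exact (Fintype.equivFin τ).injective (Fin.ext h2)
  have hrT : ∀ y, T < r y := by
    intro y
    have h1 : T + (Fintype.equivFin τ y : ℕ) + 2 ≤ r y := Nat.add_two_le_nth_prime _
    omega
  have hrC : ∀ y h, ¬ r y ∣ C h := by
    intro y h hd
    have h1 := Nat.le_of_dvd (hC h) hd
    have h2 := hrT y
    have h3 := hCT h
    omega
  set N : ℕ := 1 + ∑ y, e y with hN
  have hNe : ∀ y, e y + 1 ≤ N := by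
    intro y
    have := single_le_sum (f := e) (fun _ _ => Nat.zero_le _) (mem_univ y)
    omega
  choose w hw using fun y : τ => exists_inv (C (φ y)) (r y) N (hrp y) (hrC y _)
    ((r y : ℤ) ^ e y - D (φ y))
  have hav : ∀ p : ℕ, ∃ w : ℤ, p.Prime → ∀ h, ¬ (p : ℤ) ∣ C h * w + D h := by
    intro p
    by_cases hp : p.Prime
    · obtain ⟨w, hw⟩ := avoid_roots C D hcop hsm p hp
      exact ⟨w, fun _ => hw⟩
    · exact ⟨0, fun h => absurd h hp⟩
  choose v hv using hav
  set S1 : Finset ℕ := (range (T + 1)).filter Nat.Prime with hS1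
  have hS1m : ∀ p, p ∈ S1 ↔ p.Prime ∧ p ≤ T := by
    intro p
    rw [hS1, mem_filter, mem_range]
    constructor
    · rintro ⟨h1, h2⟩; exact ⟨h2, by omega⟩
    · rintro ⟨h1, h2⟩; exact ⟨by omega, h1⟩
  set S : Finset ℕ := S1 ∪ univ.image r with hS
  have hSp : ∀ p ∈ S, p.Prime := by
    intro p hp
    rw [hS, mem_union, mem_image] at hp
    rcases hp with h | ⟨y, -, rfl⟩
    · exact ((hS1m p).1 h).1
    · exact hrp y
  have hmemr : ∀ y, r y ∈ S := fun y => by
    rw [hS, mem_union, mem_image]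
    exact Or.inr ⟨y, mem_univ _, rfl⟩
  set a : ℕ → ℤ := fun p => if h : ∃ y, r y = p then w h.choose else v p with ha
  obtain ⟨n0, -, hn0⟩ := crt_pow S hSp N a 0
  have har : ∀ y, a (r y) = w y := by
    intro y
    rw [ha]
    simp only
    have hex : ∃ y', r y' = r y := ⟨y, rfl⟩
    rw [dif_pos hex, hrinj hex.choose_spec]
  have hn0r : ∀ y, (r y : ℤ) ^ N ∣ (C (φ y) * n0 + D (φ y) : ℤ) - (r y : ℤ) ^ e y := by
    intro y
    have h1 := hn0 (r y) (hmemr y)
    rw [har] at h1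
    have h2 := dvd_add (Dvd.dvd.mul_left h1 (C (φ y) : ℤ)) (hw y)
    have e1 : (C (φ y) : ℤ) * ((n0 : ℤ) - w y) + ((C (φ y) : ℤ) * w y - ((r y : ℤ) ^ e y - D (φ y))) =
        (C (φ y) * n0 + D (φ y) : ℤ) - (r y : ℤ) ^ e y := by ring
    rwa [e1] at h2
  have hn0s : ∀ p ∈ S1, ∀ h, ¬ p ∣ C h * n0 + D h := by
    intro p hp h hd
    obtain ⟨hpp, hpT⟩ := (hS1m p).1 hp
    have h1 := hn0 p (mem_union_left _ hp)
    rw [ha] at h1
    simp only at h1
    rw [dif_neg (by
      rintro ⟨y, hy⟩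
      have := hrT y
      omega)] at h1
    have h2 : (p : ℤ) ∣ (n0 : ℤ) - v p := (dvd_pow_self _ (by omega)).trans h1
    apply hv p hpp h
    have h3 : (p : ℤ) ∣ ((C h * n0 + D h : ℕ) : ℤ) := by exact_mod_cast hd
    have h4 := dvd_sub h3 (h2.mul_left (C h : ℤ))
    have e1 : ((C h * n0 + D h : ℕ) : ℤ) - C h * (n0 - v p) = C h * v p + D h := by
      push_cast; ring
    rwa [e1] at h4
  -- the modulus
  set E1 : ℕ := ∏ p ∈ S1, p ^ N with hE1
  set E : ℕ := E1 * ∏ y, r y ^ N with hE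
  set E' : ι → ℕ := fun h => E1 * ∏ y, r y ^ (if φ y = h then N - e y else N) with hE'
  set Rh : ι → ℕ := fun h => ∏ y, (if φ y = h then r y ^ e y else 1) with hRh
  have hEE : ∀ h, Rh h * E' h = E := by
    intro h
    simp only [hRh, hE', hE]
    rw [mul_left_comm, ← prod_mul_distrib]
    congr 1
    apply prod_congr rfl
    intro y _
    have := hNe y
    by_cases hy : φ y = h
    · rw [if_pos hy, if_pos hy, ← pow_add]
      congr 1
      omega
    · rw [if_neg hy, if_neg hy, one_mul]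
  have hE1pos : 0 < E1 := prod_pos fun p hp => pow_pos ((hS1m p).1 hp).1.pos _
  have hE'pos : ∀ h, 0 < E' h := fun h =>
    Nat.mul_pos hE1pos (prod_pos fun y _ => pow_pos (hrp y).pos _)
  have hEpos : 0 < E := Nat.mul_pos hE1pos (prod_pos fun y _ => pow_pos (hrp y).pos _)
  have hRpos : ∀ h, 0 < Rh h := fun h => prod_pos fun y _ => by
    split_ifs
    · exact pow_pos (hrp y).pos _
    · exact one_pos
  have hrE' : ∀ y h, r y ∣ E' h := by
    intro y h
    refine Dvd.dvd.mul_left ?_ _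
    refine Dvd.dvd.trans ?_ (dvd_prod_of_mem (fun y => r y ^ (if φ y = h then N - e y else N))
      (mem_univ y))
    refine dvd_pow_self _ ?_
    have := hNe y
    split_ifs <;> omega
  have hpE' : ∀ p ∈ S1, ∀ h, p ∣ E' h := by
    intro p hp h
    refine Dvd.dvd.mul_right ?_ _
    exact (dvd_pow_self _ (by omega)).trans (dvd_prod_of_mem (fun p => p ^ N) hp)
  have hE'pf : ∀ p h, p.Prime → p ∣ E' h → p ∈ S1 ∨ ∃ y, p = r y := by
    intro p h hp hd
    rcases (Nat.Prime.dvd_mul hp).1 hd with h1 | h1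
    · rw [hE1, Prime.dvd_finsetProd_iff hp.prime] at h1
      obtain ⟨q, hq, hpq⟩ := h1
      rw [(Nat.prime_dvd_prime_iff_eq hp ((hS1m q).1 hq).1).1 (hp.dvd_of_dvd_pow hpq)]
      exact Or.inl hq
    · rw [Prime.dvd_finsetProd_iff hp.prime] at h1
      obtain ⟨y, -, hpq⟩ := h1
      exact Or.inr ⟨y, (Nat.prime_dvd_prime_iff_eq hp (hrp y)).1 (hp.dvd_of_dvd_pow hpq)⟩
  -- divisibility of the constant terms
  have hRD : ∀ h, Rh h ∣ C h * n0 + D h := by
    intro h
    apply Finset.prod_dvd_of_isRelPrime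
    · intro y _ y' _ hne
      have h1 : Nat.Coprime (if φ y = h then r y ^ e y else 1) (if φ y' = h then r y' ^ e y' else 1) := by
        split_ifs
        · exact Nat.Coprime.pow _ _ ((Nat.coprime_primes (hrp y) (hrp y')).2
            (fun h => hne (hrinj h)))
        · exact Nat.coprime_one_right _
        · exact Nat.coprime_one_left _
        · exact Nat.coprime_one_left _
      exact Nat.coprime_iff_isRelPrime.1 h1
    · intro y _
      split_ifs with hy
      · have h1 : (r y : ℤ) ^ e y ∣ (C (φ y) * n0 + D (φ y) : ℤ) - (r y : ℤ) ^ e y :=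
          (pow_dvd_pow _ (by have := hNe y; omega)).trans (hn0r y)
        have h2 := dvd_add h1 (dvd_refl ((r y : ℤ) ^ e y))
        rw [sub_add_cancel] at h2
        rw [← hy]
        exact_mod_cast h2
      · exact one_dvd _
  choose B hB using hRD
  have hB1 : ∀ h, 1 ≤ B h := by
    intro h
    by_contra h0
    have h1 : B h = 0 := by omega
    have h2 := hB h
    rw [h1, mul_zero] at h2
    have := hD h
    omega
  have hrother : ∀ h y, φ y ≠ h → ¬ r y ∣ C h * n0 + D h := by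
    intro h y hne hd
    have h1 : (r y : ℤ) ∣ ((C (φ y) * n0 + D (φ y) : ℕ) : ℤ) := by
      have h1 : (r y : ℤ) ∣ (C (φ y) * n0 + D (φ y) : ℤ) - (r y : ℤ) ^ e y :=
        (dvd_pow_self _ (by omega)).trans (hn0r y)
      have h2 := dvd_add h1 (dvd_pow_self (r y : ℤ) (by have := he y; omega : e y ≠ 0))
      rw [sub_add_cancel] at h2
      exact_mod_cast h2
    have h2 : (r y : ℤ) ∣ ((C h * n0 + D h : ℕ) : ℤ) := by exact_mod_cast hd
    have h3 := dvd_sub (h2.mul_left (C (φ y) : ℤ)) (h1.mul_left (C h : ℤ))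
    have e1 : (C (φ y) : ℤ) * ((C h * n0 + D h : ℕ) : ℤ) -
        C h * ((C (φ y) * n0 + D (φ y) : ℕ) : ℤ) =
        ((C (φ y) * D h : ℕ) : ℤ) - ((C h * D (φ y) : ℕ) : ℤ) := by push_cast; ring
    rw [e1] at h3
    have h4 : r y ∣ (((C (φ y) * D h : ℕ) : ℤ) - ((C h * D (φ y) : ℕ) : ℤ)).natAbs :=
      Int.natCast_dvd.1 h3
    have h5 := hdet (φ y) h hne
    have h6 := hT (φ y) h
    have h7 := hT h (φ y)
    have h8 := hrT y
    have h9 : (((C (φ y) * D h : ℕ) : ℤ) - ((C h * D (φ y) : ℕ) : ℤ)).natAbs ≠ 0 := by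
      intro h0
      apply h5
      omega
    have h10 := Nat.le_of_dvd (Nat.pos_of_ne_zero h9) h4
    omega
  have hrB : ∀ h y, ¬ r y ∣ B h := by
    intro h y hd
    by_cases hy : φ y = h
    · have h0 : r y ^ (e y + 1) ∣ Rh h * B h := by
        rw [pow_succ]
        apply mul_dvd_mul _ hd
        have h1 := dvd_prod_of_mem (fun y => if φ y = h then r y ^ e y else 1) (mem_univ y)
        simp only [if_pos hy] at h1
        exact h1
      rw [← hB h] at h0
      rw [← hy] at h0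
      have h1 : (r y : ℤ) ^ (e y + 1) ∣ (C (φ y) * n0 + D (φ y) : ℤ) := by exact_mod_cast h0
      have h2 : (r y : ℤ) ^ (e y + 1) ∣ (C (φ y) * n0 + D (φ y) : ℤ) - (r y : ℤ) ^ e y :=
        (pow_dvd_pow _ (hNe y)).trans (hn0r y)
      have h3 := dvd_sub h1 h2
      rw [sub_sub_cancel] at h3
      have h4 : r y ^ (e y + 1) ∣ r y ^ e y := by exact_mod_cast h3
      have h5 := (Nat.pow_dvd_pow_iff_le_right (hrp y).one_lt).1 h4
      omega
    · apply hrother h y hy
      rw [hB h]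
      exact hd.mul_left _
  refine ⟨n0, E, r, fun h => C h * E' h, B, hEpos, hrp, hrinj, hrT, ?_, fun h =>
    Nat.mul_pos (hC h) (hE'pos h), hB1, ?_, fun h => dvd_mul_right _ _,
    fun y h => (hrE' y h).mul_left _, ?_⟩
  · intro h m
    have h1 := hEE h
    have h2 := hB h
    calc C h * (n0 + E * m) + D h = C h * E * m + (C h * n0 + D h) := by ring
      _ = C h * (Rh h * E' h) * m + Rh h * B h := by rw [h1, h2]
      _ = Rh h * (C h * E' h * m + B h) := by ring
  · intro h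
    rw [Nat.coprime_iff_gcd_eq_one]
    by_contra hg
    obtain ⟨p, hp, hpg⟩ := Nat.exists_prime_and_dvd hg
    have hpA' : p ∣ C h * E' h := hpg.trans (Nat.gcd_dvd_left _ _)
    have hpB' : p ∣ B h := hpg.trans (Nat.gcd_dvd_right _ _)
    have hpc : p ∣ C h * n0 + D h := by
      rw [hB h]
      exact hpB'.mul_left _
    rcases (Nat.Prime.dvd_mul hp).1 hpA' with h1 | h1
    · have h2 : p ∣ D h := (Nat.dvd_add_right (h1.mul_right _)).1 hpc
      exact hp.one_lt.ne' (Nat.dvd_one.1 ((hcop h) ▸ Nat.dvd_gcd h1 h2))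
    · rcases hE'pf p h hp h1 with h2 | ⟨y, rfl⟩
      · exact hn0s p h2 h hpc
      · exact hrB h y hpB'
  · intro p hp hpT h m hd
    have hpS : p ∈ S1 := (hS1m p).2 ⟨hp, hpT⟩
    have hpE : p ∣ E := by
      rw [← hEE h]
      exact (hpE' p hpS h).mul_left _
    apply hn0s p hpS h
    have e1 : C h * (n0 + E * m) + D h = (C h * n0 + D h) + C h * (E * m) := by ring
    rw [e1] at hd
    exact (Nat.dvd_add_left ((hpE.mul_right m).mul_left _)).1 hd

end Pool.Agent.Y887.DK
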