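import Mathlib
import Pool.Agent.Y887.DK.Cons

/-!
The first restriction to a residue class, and the counting of values of injective maps.
-/

set_option autoImplicit false

namespace Pool.Agent.Y887.DK

open Finset Filter Pool.Agent.Y887.TD

theorem isCoprime_of_primes {x y : ℤ} (hy : y ≠ 0)
    (h : ∀ p : ℕ, p.Prime → (p : ℤ) ∣ y → ¬ (p : ℤ) ∣ x) : IsCoprime x y := by
  rw [Int.isCoprime_iff_gcd_eq_one]
  by_contra hg
  obtain ⟨p, hp, hpg⟩ := Nat.exists_prime_and_dvd hg
  exact h p hp (Int.natCast_dvd.2 (hpg.trans (Nat.gcd_dvd_right _ _)))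
    (Int.natCast_dvd.2 (hpg.trans (Nat.gcd_dvd_left _ _)))

theorem setup {r : ℕ} (a : Fin r → ℕ) (b : Fin r → ℤ) (ha : ∀ u, 1 ≤ a u)
    (hadm : ∀ p : ℕ, p.Prime → ∃ n : ℤ, ∀ u, ¬ (p : ℤ) ∣ a u * n + b u)
    (q : ℕ) (c : ℤ) (hq : 1 ≤ q) (hc : ∀ u, IsCoprime (a u * c + b u) (q : ℤ)) (Q0 : ℕ) :
    ∃ W n0 : ℕ, 1 ≤ W ∧ q ∣ W ∧ (∀ p : ℕ, p.Prime → p ≤ Q0 → p ∣ W) ∧
      ((q : ℤ) ∣ n0 - c) ∧ ∀ u, 0 < a u * (n0 : ℤ) + b u ∧
        IsCoprime (a u * (n0 : ℤ) + b u) (W : ℤ) := by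
  classical
  have hex : ∀ p : ℕ, ∃ n : ℤ, p.Prime → (∀ u, ¬ (p : ℤ) ∣ a u * n + b u) ∧
      (p ∣ q → n = c) := by
    intro p
    by_cases hp : p.Prime
    · by_cases hpq : p ∣ q
      · refine ⟨c, fun _ => ⟨fun u hd => ?_, fun _ => rfl⟩⟩
        have h1 : (p : ℤ) ∣ (q : ℤ) := by exact_mod_cast hpq
        have h2 := (hc u).isUnit_of_dvd' hd h1
        have h3 := Int.isUnit_iff_natAbs_eq.1 h2
        rw [Int.natAbs_natCast] at h3
        exact hp.one_lt.ne' h3
      · obtain ⟨n, hn⟩ := hadm p hp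
        exact ⟨n, fun _ => ⟨hn, fun h => absurd h hpq⟩⟩
    · exact ⟨0, fun h => absurd h hp⟩
  choose aa haa using hex
  set S : Finset ℕ := q.primeFactors ∪ (range (Q0 + 1)).filter Nat.Prime with hS
  have hSp : ∀ p ∈ S, p.Prime := by
    intro p hp
    rw [hS, mem_union, mem_filter] at hp
    rcases hp with h | h
    · exact Nat.prime_of_mem_primeFactors h
    · exact h.2
  obtain ⟨n0, hn0L, hn0⟩ := crt_pow S hSp (q + 1) aa (1 + ∑ u, (b u).natAbs)
  refine ⟨q * ∏ p ∈ S, p, n0, ?_, dvd_mul_right _ _, ?_, ?_, ?_⟩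
  · have h1 : 0 < ∏ p ∈ S, p := prod_pos fun p hp => (hSp p hp).pos
    exact Nat.mul_pos hq h1
  · intro p hp hpQ
    have h1 : p ∈ S := by
      rw [hS, mem_union, mem_filter, mem_range]
      exact Or.inr ⟨by omega, hp⟩
    exact (dvd_prod_of_mem (fun p => p) h1).mul_left _
  · apply dvd_of_pow (N := q + 1) (by omega) (by omega)
    intro p hp
    have h1 := hn0 p (by rw [hS, mem_union]; exact Or.inl hp)
    have h2 := (haa p (Nat.prime_of_mem_primeFactors hp)).2 (Nat.dvd_of_mem_primeFactors hp)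
    rwa [h2] at h1
  · intro u
    constructor
    · have h1 : (b u).natAbs ≤ ∑ u, (b u).natAbs :=
        single_le_sum (f := fun u => (b u).natAbs) (fun _ _ => Nat.zero_le _) (mem_univ u)
      have h2 : (1 : ℤ) ≤ a u := by exact_mod_cast ha u
      have h3 : ((b u).natAbs : ℤ) + 1 ≤ n0 := by
        have : (b u).natAbs + 1 ≤ n0 := by omega
        exact_mod_cast this
      have h4 : -((b u).natAbs : ℤ) ≤ b u := by
        have := neg_abs_le (b u)
        rwa [Int.abs_eq_natAbs] at this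
      nlinarith
    · apply isCoprime_of_primes
      · have h1 : 0 < ∏ p ∈ S, p := prod_pos fun p hp => (hSp p hp).pos
        have h2 := Nat.mul_pos hq h1
        exact_mod_cast h2.ne'
      · intro p hp hpW hpu
        have hpW' : p ∣ q * ∏ p ∈ S, p := by exact_mod_cast hpW
        have hpS : p ∈ S := by
          rcases (Nat.Prime.dvd_mul hp).1 hpW' with h | h
          · rw [hS, mem_union]
            exact Or.inl (Nat.mem_primeFactors.2 ⟨hp, h, by omega⟩)
          · obtain ⟨p', hp', hpp⟩ := (Prime.dvd_finset_prod_iff hp.prime _).1 h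
            have := (Nat.prime_dvd_prime_iff_eq hp (hSp p' hp')).1 hpp
            rwa [this]
        have h1 := hn0 p hpS
        have h2 : (p : ℤ) ∣ (n0 : ℤ) - aa p := (dvd_pow_self _ (Nat.succ_ne_zero q)).trans h1
        have h3 := (haa p hp).1 u
        apply h3
        have h4 : (a u : ℤ) * aa p + b u = (a u * n0 + b u) - a u * ((n0 : ℤ) - aa p) := by ring
        rw [h4]
        exact dvd_sub hpu (h2.mul_left _)

theorem count_map (k Cb K1 : ℕ) (ν : Fin k → Fin k → ℕ → ℕ) (G P : ℕ → Prop) (hk : 1 ≤ k)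
    (hCb : 1 ≤ Cb) (hinj : ∀ i j, Function.Injective (ν i j))
    (hν : ∀ i j m, 1 ≤ m → ν i j m ≤ Cb * m)
    (S : ℕ → Finset ℕ) (hS : ∀ X, ∀ m ∈ S X, 1 ≤ m ∧ m ≤ X ∧ G m)
    (hSc : ∀ᶠ X : ℕ in atTop, (X : ℝ) / Real.log X ^ K1 ≤ ((S X).card : ℝ))
    (hG : ∀ m, 1 ≤ m → G m → ∃ i j, P (ν i j m)) (K : ℕ) (hK : K1 + 1 ≤ K) :
    ∀ᶠ X : ℕ in atTop, (X : ℝ) / Real.log X ^ K ≤ ({n : ℕ | n ≤ X ∧ P n}.ncard : ℝ) := by
  classical
  have hex : ∀ m : ℕ, ∃ q : Fin k × Fin k, 1 ≤ m → G m → P (ν q.1 q.2 m) := by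
    intro m
    by_cases h : 1 ≤ m ∧ G m
    · obtain ⟨i, j, hij⟩ := hG m h.1 h.2
      exact ⟨(i, j), fun _ _ => hij⟩
    · exact ⟨(⟨0, hk⟩, ⟨0, hk⟩), fun h1 h2 => absurd ⟨h1, h2⟩ h⟩
  choose q hq using hex
  set φ : ℕ → ℕ := fun m => ν (q m).1 (q m).2 m with hφ
  -- division by the constant
  have hdiv : Tendsto (fun X : ℕ => X / Cb) atTop atTop := by
    rw [tendsto_atTop]
    intro c
    filter_upwards [eventually_ge_atTop (c * Cb)] with X hX
    exact (Nat.le_div_iff_mul_le (by omega)).2 hX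
  have hlogX : Tendsto (fun X : ℕ => Real.log (X : ℝ)) atTop atTop :=
    Real.tendsto_log_atTop.comp tendsto_natCast_atTop_atTop
  have hlogX' : Tendsto (fun X : ℕ => Real.log ((X / Cb : ℕ) : ℝ)) atTop atTop := hlogX.comp hdiv
  filter_upwards [hdiv.eventually hSc, hlogX'.eventually_ge_atTop 1,
    hlogX.eventually_ge_atTop (2 * Cb * (k * k)), eventually_ge_atTop (2 * Cb)]
    with X h1 h2 h3 h4
  set X' := X / Cb with hX'
  have hCbr : (1 : ℝ) ≤ Cb := by exact_mod_cast hCb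
  have hkr : (1 : ℝ) ≤ k := by exact_mod_cast hk
  -- the image
  have hcard : (S X').card ≤ (k * k) * ((S X').image φ).card := by
    apply card_le_mul_card_image
    intro v _
    calc ((S X').filter (fun m => φ m = v)).card ≤ (univ : Finset (Fin k × Fin k)).card := by
          apply card_le_card_of_injOn q
          · intro m _
            exact mem_coe.2 (mem_univ _)
          · intro m hm m' hm' hqq
            rw [mem_coe, mem_filter] at hm hm'
            have e1 : φ m = φ m' := by rw [hm.2, hm'.2]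
            simp only [hφ] at e1
            rw [hqq] at e1
            exact hinj _ _ e1
      _ = k * k := by rw [card_univ, Fintype.card_prod, Fintype.card_fin]
  set W : Set ℕ := {n : ℕ | n ≤ X ∧ P n} with hW
  have hWfin : W.Finite := (Set.finite_Iic X).subset fun n hn => hn.1
  have hsub : (((S X').image φ : Finset ℕ) : Set ℕ) ⊆ W := by
    intro n hn
    rw [mem_coe, mem_image] at hn
    obtain ⟨m, hm, rfl⟩ := hn
    obtain ⟨hm1, hm2, hm3⟩ := hS X' m hm
    have e3 : φ m ≤ X := by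
      refine (hν (q m).1 (q m).2 m hm1).trans ?_
      calc Cb * m ≤ Cb * X' := Nat.mul_le_mul_left _ hm2
        _ ≤ X := Nat.mul_div_le X Cb
    exact ⟨e3, hq m hm1 hm3⟩
  have hWc : ((S X').image φ).card ≤ W.ncard := by
    rw [← Set.ncard_coe_finset]
    exact Set.ncard_le_ncard hsub hWfin
  have hfin : ((S X').card : ℝ) ≤ (k * k) * (W.ncard : ℝ) := by
    have : (S X').card ≤ (k * k) * W.ncard := hcard.trans (Nat.mul_le_mul_left _ hWc)
    exact_mod_cast this
  -- sizes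
  have hXr : (X : ℝ) / (2 * Cb) ≤ X' := by
    have h5 : X < Cb * (X' + 1) := Nat.lt_mul_div_succ X (by omega)
    have h6 : (X : ℝ) < Cb * (X' + 1) := by exact_mod_cast h5
    have h7 : (2 * Cb : ℝ) ≤ X := by exact_mod_cast h4
    rw [div_le_iff₀ (by linarith)]
    nlinarith
  have hX'1 : (1 : ℝ) ≤ X' := by
    have h7 : (2 * Cb : ℝ) ≤ X := by exact_mod_cast h4
    refine le_trans ?_ hXr
    rw [le_div_iff₀ (by linarith)]
    linarith
  have hX'X : (X' : ℝ) ≤ X := by exact_mod_cast Nat.div_le_self X Cb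
  have hlog : Real.log X' ≤ Real.log X := Real.log_le_log (by linarith) hX'X
  have hl1 : 1 ≤ Real.log X := h2.trans hlog
  have hX0 : (0 : ℝ) ≤ X := Nat.cast_nonneg _
  have hstep : (X : ℝ) / Real.log X ^ (K1 + 1) * (k * k) ≤ X' / Real.log X' ^ K1 := by
    calc (X : ℝ) / Real.log X ^ (K1 + 1) * (k * k) = X * (k * k) / (Real.log X * Real.log X ^ K1) := by
          rw [pow_succ]; ring
      _ ≤ X * (k * k) / ((2 * Cb * (k * k)) * Real.log X' ^ K1) := by
          apply div_le_div_of_nonneg_left (by positivity) (by positivity)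
          apply mul_le_mul h3 (pow_le_pow_left₀ (by linarith) hlog _) (by positivity) (by linarith)
      _ = X / (2 * Cb) / Real.log X' ^ K1 := by
          field_simp
      _ ≤ X' / Real.log X' ^ K1 := by
          apply div_le_div_of_nonneg_right hXr (by positivity)
  have hKK : (X : ℝ) / Real.log X ^ K ≤ X / Real.log X ^ (K1 + 1) := by
    apply div_le_div_of_nonneg_left hX0 (by positivity)
    exact pow_le_pow_right₀ hl1 hK
  have h8 : (X : ℝ) / Real.log X ^ (K1 + 1) * (k * k) ≤ (W.ncard : ℝ) * (k * k) := by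
    calc _ ≤ _ := hstep
      _ ≤ ((S X').card : ℝ) := h1
      _ ≤ (k * k) * (W.ncard : ℝ) := hfin
      _ = _ := by ring
  have h9 := le_of_mul_le_mul_right h8 (by positivity)
  exact hKK.trans h9

end Pool.Agent.Y887.DK
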