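import Mathlib
import Pool.Agent.Y887.DK.Setup

/-!
Algebra of one pair of forms.
-/

set_option autoImplicit false

namespace Pool.Agent.Y887.DK

open Finset Filter Pool.Agent.Y887.TD

theorem pair_id {as bt Bs Bt W x z g zg xg κ δ : ℕ} (has : 1 ≤ as) (hg : 1 ≤ g)
    (hPQ : bt * Bs = as * Bt + δ) (hid : (bt * Bs) * z = (as * Bt) * x + δ * g) (hz : z = zg * g)
    (hx : x = xg * g) (hκ : zg = 1 + (as * W) * κ) :
    (∀ m, as * W * (κ * Bs + zg * x * m) + Bs = zg * (as * W * x * m + Bs)) ∧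
      bt * W * κ * Bs + Bt = xg * Bt ∧
      (∀ m, bt * W * (κ * Bs + zg * x * m) + Bt = xg * (bt * W * z * m + Bt)) := by
  have h1 : (bt * Bs) * zg = (as * Bt) * xg + δ := by
    have h2 : g * ((bt * Bs) * zg) = g * ((as * Bt) * xg + δ) := by
      rw [hz, hx] at hid
      calc g * ((bt * Bs) * zg) = (bt * Bs) * (zg * g) := by ring
        _ = _ := hid
        _ = _ := by ring
    exact Nat.eq_of_mul_eq_mul_left hg h2
  have h2 : bt * W * κ * Bs + Bt = xg * Bt := by
    have h3 : as * (bt * W * κ * Bs + Bt) = as * (xg * Bt) := by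
      zify at *
      rw [hκ] at h1
      linear_combination h1 - hPQ
    exact Nat.eq_of_mul_eq_mul_left has h3
  refine ⟨fun m => ?_, h2, fun m => ?_⟩
  · have h3 : zg * Bs = Bs + as * W * κ * Bs := by
      calc zg * Bs = (1 + (as * W) * κ) * Bs := by rw [← hκ]
        _ = _ := by ring
    calc as * W * (κ * Bs + zg * x * m) + Bs = zg * (as * W * x * m) +
          (Bs + as * W * κ * Bs) := by ring
      _ = _ := by rw [← h3]; ring
  · calc bt * W * (κ * Bs + zg * x * m) + Bt = (zg * x) * (bt * W * m) +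
          (bt * W * κ * Bs + Bt) := by ring
      _ = (xg * z) * (bt * W * m) + xg * Bt := by
          rw [h2, hz]
          have : zg * x = xg * (zg * g) := by rw [hx]; ring
          rw [this]
      _ = _ := by ring

theorem cop_N {as bt au Bs Bt Bu W x z g zg xg κ Λ : ℕ} (h1 : Nat.Coprime (au * W) Bu)
    (hxΛ : ∀ p : ℕ, p.Prime → p ∣ x → ¬ p ∣ Λ) (hzΛ : ∀ p : ℕ, p.Prime → p ∣ z → ¬ p ∣ Λ)
    (hBu : Bu ∣ Λ) (hasW : as * W ∣ Λ) (hds : ((as : ℤ) * Bu - au * Bs) ∣ (Λ : ℤ))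
    (hdt : ((bt : ℤ) * Bu - au * Bt) ∣ (Λ : ℤ)) (hz : z = zg * g) (hx : x = xg * g)
    (hκ : zg = 1 + (as * W) * κ) (h2 : bt * W * κ * Bs + Bt = xg * Bt)
    (hcom : ∀ p : ℕ, p.Prime → p ∣ x → p ∣ z →
      p ∣ xg ∨ p ∣ zg ∨ (p : ℤ) ∣ (zg : ℤ) - 1) :
    Nat.Coprime (au * W * (zg * x)) (au * W * κ * Bs + Bu) := by
  apply Nat.Coprime.symm
  apply Nat.coprime_of_dvd
  intro p hp hpR hpL
  have hpR' : (p : ℤ) ∣ (au : ℤ) * W * κ * Bs + Bu := by exact_mod_cast hpR
  have hκ' : (zg : ℤ) = 1 + (as * W) * κ := by exact_mod_cast hκ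
  have h2' : (bt : ℤ) * W * κ * Bs + Bt = xg * Bt := by exact_mod_cast h2
  have caseZ : ¬ p ∣ zg := by
    intro h
    have hpz : p ∣ z := hz ▸ h.mul_right g
    apply hzΛ p hp hpz
    have h' : (p : ℤ) ∣ (zg : ℤ) := by exact_mod_cast h
    have h3 : (p : ℤ) ∣ (as : ℤ) * Bu - au * Bs := by
      have e : (as : ℤ) * Bu - au * Bs = as * ((au : ℤ) * W * κ * Bs + Bu) - au * Bs * zg := by
        rw [hκ']; ring
      rw [e]
      exact dvd_sub (hpR'.mul_left _) (h'.mul_left _)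
    exact_mod_cast h3.trans hds
  have caseX : p ∣ x → ¬ p ∣ xg := by
    intro hpx h
    apply hxΛ p hp hpx
    have h' : (p : ℤ) ∣ (xg : ℤ) := by exact_mod_cast h
    have h3 : (p : ℤ) ∣ (bt : ℤ) * Bu - au * Bt := by
      have e : (bt : ℤ) * Bu - au * Bt = bt * ((au : ℤ) * W * κ * Bs + Bu) - au * Bt * xg := by
        linear_combination (-(au : ℤ)) * h2'
      rw [e]
      exact dvd_sub (hpR'.mul_left _) (h'.mul_left _)
    exact_mod_cast h3.trans hdt
  rcases (Nat.Prime.dvd_mul hp).1 hpL with h | h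
  · have h3 : p ∣ Bu := by
      have h4 : p ∣ au * W * κ * Bs := (h.mul_right κ).mul_right Bs
      exact (Nat.dvd_add_right h4).1 hpR
    exact hp.one_lt.ne' (Nat.dvd_one.1 (h1 ▸ Nat.dvd_gcd h h3))
  · rcases (Nat.Prime.dvd_mul hp).1 h with h | h
    · exact caseZ h
    · have h3 : p ∣ g := by
        rw [hx] at h
        rcases (Nat.Prime.dvd_mul hp).1 h with h4 | h4
        · exact absurd h4 (caseX (hx ▸ h))
        · exact h4
      have h4 : p ∣ z := hz ▸ h3.mul_left zg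
      rcases hcom p hp h h4 with h5 | h5 | h5
      · exact caseX h h5
      · exact caseZ h5
      · have h6 : (p : ℤ) ∣ ((as * W : ℕ) : ℤ) * κ := by
          have e : ((as * W : ℕ) : ℤ) * κ = zg - 1 := by
            rw [hκ']; push_cast; ring
          rw [e]
          exact h5
        have h7 : p ∣ (as * W) * κ := by exact_mod_cast h6
        rcases (Nat.Prime.dvd_mul hp).1 h7 with h8 | h8
        · exact hxΛ p hp h (h8.trans hasW)
        · have h9 : p ∣ au * W * κ * Bs := (h8.mul_left _).mul_right Bs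
          have h10 : p ∣ Bu := (Nat.dvd_add_right h9).1 hpR
          exact hxΛ p hp h (h10.trans hBu)

end Pool.Agent.Y887.DK
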