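import Mathlib
import Pool.Agent.Y887.TD.SieveB

/-!
Many arguments at which all forms of a system are squarefree with few prime factors on average.
-/

set_option autoImplicit false

namespace Pool.Agent.Y887.DK

open Finset Pool.Agent.H373R2.T7 Pool.Agent.Y887.TD

variable {ι : Type} [Fintype ι]

set_option maxHeartbeats 2000000 in
open Classical in
theorem core2 (Mn : Finset ι) (hMn : Mn.Nonempty) (A B : ι → ℕ) (hB : ∀ h, 1 ≤ B h) (hAB : ∀ h, Nat.Coprime (A h) (B h))
    (hκ : 1 ≤ Fintype.card ι) (L n J X x y CF R1 : ℕ) (V : ℝ)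
    (hL : ∀ (J n : ℕ) (P : Finset ℕ), (∀ q ∈ P, q.Prime ∧ 2 ^ 2 ^ J < q ∧ q < 2 ^ 2 ^ (J + n)) →
      ∑ q ∈ P, (1 : ℝ) / q ≤ L * n)
    (hy : y = 2 ^ 2 ^ J) (hyx : y ≤ x) (hxX : x ^ 4 ≤ X) (hXn : X < 2 ^ 2 ^ (J + n))
    (hV : V = ∏ p ∈ pz y, (1 - (nuB (QF A B) p : ℝ) / p)) (hV0 : 0 ≤ V)
    (hFund : ∀ Q : ℕ → ℕ → Prop, PerB Q (Fintype.card ι) → ∀ X : ℕ,
      |((((Icc 1 X).filter (fun n : ℕ => ∀ p ∈ pz y, ¬ Q p n)).card : ℕ) : ℝ) -
      X * ∏ p ∈ pz y, (1 - (nuB Q p : ℝ) / p)| ≤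
      1 / 4 * (X * ∏ p ∈ pz y, (1 - (nuB Q p : ℝ) / p)) + √(x : ℝ))
    (hCF : ∀ h, A h + B h ≤ CF) (hCFX : CF ^ 2 ≤ X)
    (hE : 16 * (Fintype.card ι * (2 * CF + 3) : ℝ) / y ≤ V)
    (hR1 : 5 * (L * n) + 12 ≤ R1) :
    (X : ℝ) * V / 8 ≤ (((Icc 1 X).filter (fun m => (∀ h, Squarefree (A h * m + B h)) ∧
        ∑ h, (A h * m + B h).primeFactors.card ≤ Fintype.card ι * R1 ∧
        ∑ h ∈ Mn, (A h * m + B h).primeFactors.card ≤ Mn.card * R1)).card : ℝ) := by
  set κ : ℕ := Fintype.card ι with hκd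
  have hy2 : 2 ≤ y := by
    rw [hy]
    calc 2 = 2 ^ 1 := by norm_num
      _ ≤ 2 ^ 2 ^ J := Nat.pow_le_pow_right (by norm_num) Nat.one_le_two_pow
  have hx1 : 1 ≤ x := by omega
  set s := Nat.sqrt X with hs
  have hx2s : x ^ 2 ≤ s := by
    rw [hs, Nat.le_sqrt']
    calc (x ^ 2) ^ 2 = x ^ 4 := by ring
      _ ≤ X := hxX
  have hssX : s * s ≤ X := Nat.sqrt_le X
  have hxyX : x * y ≤ X := by
    calc x * y ≤ x * x := Nat.mul_le_mul_left _ hyx
      _ = x ^ 2 := by ring
      _ ≤ s := hx2s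
      _ ≤ X := Nat.sqrt_le_self X
  have hsxyX : s * x * y ≤ X := by
    calc s * x * y ≤ s * x * x := Nat.mul_le_mul_left _ hyx
      _ = s * x ^ 2 := by ring
      _ ≤ s * s := Nat.mul_le_mul_left _ hx2s
      _ ≤ X := hssX
  have hyr : (0 : ℝ) < y := by
    have : 0 < y := by omega
    exact_mod_cast this
  have hX1 : 1 ≤ X := by nlinarith
  have hXr : (1 : ℝ) ≤ X := by exact_mod_cast hX1
  have hκr : (1 : ℝ) ≤ κ := by exact_mod_cast hκ
  have hsqx : √(x : ℝ) ≤ x := by
    have h1 : (1 : ℝ) ≤ x := by exact_mod_cast hx1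
    rw [Real.sqrt_le_left (by linarith)]
    nlinarith
  set E : ℝ := X / y with hEd
  have hE0 : 0 ≤ E := by positivity
  have hE1 : √(x : ℝ) ≤ E := by
    refine hsqx.trans ?_
    rw [hEd, le_div_iff₀ hyr]
    exact_mod_cast hxyX
  have hE2 : (s : ℝ) * (1 + √(x : ℝ)) ≤ 2 * E := by
    have h1 : (1 : ℝ) ≤ x := by exact_mod_cast hx1
    have h2 : (s : ℝ) * x ≤ E := by
      rw [hEd, le_div_iff₀ hyr]
      exact_mod_cast hsxyX
    have h3 : (0 : ℝ) ≤ s := Nat.cast_nonneg s
    nlinarith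
  set W : ℝ := X * V with hW
  have hW0 : 0 ≤ W := by positivity
  have hEW : 16 * (κ * (2 * CF + 3)) * E ≤ W := by
    have h1 := mul_le_mul_of_nonneg_left hE (show (0 : ℝ) ≤ X by linarith)
    rw [hW]
    refine le_trans (le_of_eq ?_) h1
    rw [hEd]
    ring
  -- the rough arguments
  set S := (Icc 1 X).filter (fun m => ∀ p ∈ pz y, ¬ QF A B p m) with hS
  have hSc := hFund (QF A B) (perQF A B hAB) X
  rw [← hV, ← hW, ← hS] at hSc
  have hS1 : (S.card : ℝ) ≤ 5 / 4 * W + E := by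
    have := (abs_le.1 hSc).2
    linarith
  have hS2 : 3 / 4 * W - E ≤ (S.card : ℝ) := by
    have := (abs_le.1 hSc).1
    linarith
  -- sizes of the values
  have hval : ∀ h, ∀ m ≤ X, A h * m + B h ≤ CF * X := by
    intro h m hm
    calc A h * m + B h ≤ A h * X + B h * X := by
          have h1 := Nat.mul_le_mul_left (A h) hm
          have h2 : B h ≤ B h * X := Nat.le_mul_of_pos_right _ hX1
          omega
      _ = (A h + B h) * X := by ring
      _ ≤ CF * X := Nat.mul_le_mul_right _ (hCF h)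
  have hCF1 : 1 ≤ CF := by
    obtain ⟨h⟩ : Nonempty ι := Fintype.card_pos_iff.1 (by omega)
    have := hCF h
    have := hB h
    omega
  -- nonsquarefree values
  set G : ℕ := CF * (s + 1) with hG
  have hGG : ∀ h, ∀ m ≤ X, A h * m + B h ≤ G ^ 2 := by
    intro h m hm
    refine (hval h m hm).trans ?_
    have h1 : X ≤ (s + 1) ^ 2 := by
      rw [pow_two]
      exact (Nat.lt_succ_sqrt X).le
    calc CF * X ≤ CF ^ 2 * (s + 1) ^ 2 := by
          have : CF ≤ CF ^ 2 := Nat.le_self_pow (by norm_num) _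
          exact Nat.mul_le_mul this h1
      _ = G ^ 2 := by rw [hG]; ring
  have hys : y ≤ s := by
    calc y ≤ x := hyx
      _ ≤ x ^ 2 := Nat.le_self_pow (by norm_num) _
      _ ≤ s := hx2s
  have hyG : y ≤ G := by
    rw [hG]
    nlinarith
  have hGE : (G : ℝ) ≤ 2 * CF * E := by
    have h1 : ((s : ℝ) + 1) ≤ 2 * E := by
      have h2 : (s : ℝ) ≤ E := by
        rw [hEd, le_div_iff₀ hyr]
        have : s * y ≤ X := by
          calc s * y ≤ s * s := Nat.mul_le_mul_left _ hys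
            _ ≤ X := hssX
        exact_mod_cast this
      have h3 : (1 : ℝ) ≤ s := by
        have : 1 ≤ s := by omega
        exact_mod_cast this
      linarith
    rw [hG]
    push_cast
    have h0 : (0 : ℝ) ≤ CF := Nat.cast_nonneg _
    nlinarith
  have hns := nonsq_count hAB hB (by omega : 1 ≤ y) X G hGG hyG
  set S2 := S.filter (fun m => ∀ h, Squarefree (A h * m + B h)) with hS2d
  have hS2c : 3 / 4 * W - E - κ * (E + 2 * CF * E) ≤ (S2.card : ℝ) := by
    have h1 := card_filter_add_card_filter_not (s := S) (fun m => ∀ h, Squarefree (A h * m + B h))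
    have h2 : (S.filter (fun m => ¬ ∀ h, Squarefree (A h * m + B h))) =
        (Icc 1 X).filter (fun m => (∀ p ∈ pz y, ¬ QF A B p m) ∧
          ¬ ∀ h, Squarefree (A h * m + B h)) := by
      rw [hS, filter_filter]
    rw [h2] at h1
    have h3 : (S2.card : ℝ) + (((Icc 1 X).filter (fun m => (∀ p ∈ pz y, ¬ QF A B p m) ∧
          ¬ ∀ h, Squarefree (A h * m + B h))).card : ℝ) = S.card := by exact_mod_cast h1
    have h4 : (κ : ℝ) * ((X : ℝ) / y + G) ≤ κ * (E + 2 * CF * E) :=
      mul_le_mul_of_nonneg_left (by linarith) (by linarith)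
    linarith
  -- the prime factors
  set Pq := (Ioc y s).filter Nat.Prime with hPq
  have hPq' : ∀ q ∈ Pq, q.Prime ∧ y < q ∧ q ≤ s := by
    intro q hq
    rw [hPq, mem_filter, mem_Ioc] at hq
    exact ⟨hq.2, hq.1.1, hq.1.2⟩
  have hrec : ∑ q ∈ Pq, (1 : ℝ) / q ≤ L * n := by
    apply hL J n
    intro q hq
    obtain ⟨h1, h2, h3⟩ := hPq' q hq
    refine ⟨h1, by rw [← hy]; exact h2, lt_of_le_of_lt (h3.trans (Nat.sqrt_le_self X)) hXn⟩
  have hω : ∀ m ∈ S, ∀ h, (A h * m + B h).primeFactors.card ≤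
      (Pq.filter (fun q => q ∣ A h * m + B h)).card + 2 := by
    intro m hm h
    rw [hS, mem_filter, mem_Icc] at hm
    have hne : A h * m + B h ≠ 0 := by have := hB h; omega
    have h1 := card_filter_add_card_filter_not (s := (A h * m + B h).primeFactors) (fun q => s < q)
    have h2 : (A h * m + B h) ^ 2 ≤ X ^ 3 := by
      calc (A h * m + B h) ^ 2 ≤ (CF * X) ^ 2 := Nat.pow_le_pow_left (hval h m hm.1.2) 2
        _ = CF ^ 2 * X ^ 2 := by ring
        _ ≤ X * X ^ 2 := Nat.mul_le_mul_right _ hCFX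
        _ = X ^ 3 := by ring
    have h3 := few_large hne h2
    rw [← hs] at h3
    have h4 : ((A h * m + B h).primeFactors.filter (fun q => ¬ s < q)).card ≤
        (Pq.filter (fun q => q ∣ A h * m + B h)).card := by
      apply card_le_card
      intro q hq
      rw [mem_filter, Nat.mem_primeFactors] at hq
      rw [mem_filter, hPq, mem_filter, mem_Ioc]
      exact ⟨⟨⟨rough_gt hm.2 h hq.1.1 hq.1.2.1, by omega⟩, hq.1.1⟩, hq.1.2.1⟩
    omega
  have hqcount : ∀ h, ∀ q ∈ Pq, ((S.filter (fun m => q ∣ A h * m + B h)).card : ℝ) ≤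
      1 + √(x : ℝ) + 5 / 4 * W * (1 / q) := by
    intro h q hq
    obtain ⟨hqp, hyq, hqs⟩ := hPq' q hq
    obtain ⟨r, hr⟩ := count_q A B hAB (y := y) hqp X h
    have h1 : S.filter (fun m => q ∣ A h * m + B h) =
        (Icc 1 X).filter (fun m => (∀ p ∈ pz y, ¬ QF A B p m) ∧ q ∣ A h * m + B h) := by
      rw [hS, filter_filter]
    rw [h1]
    have h2 := hFund (QS A B y q r) (perQS A B hAB hqp hyq) (X / q)
    have h3 : ∏ p ∈ pz y, (1 - (nuB (QS A B y q r) p : ℝ) / p) = V := by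
      rw [hV]
      apply prod_congr rfl
      intro p hp
      rw [nuB_QS A B (mem_pz.1 hp).2 hqp (mem_pz.1 hp).1 hyq]
    rw [h3] at h2
    have h4 : ((((Icc 1 X).filter (fun m => (∀ p ∈ pz y, ¬ QF A B p m) ∧
        q ∣ A h * m + B h)).card : ℕ) : ℝ) ≤
        1 + (((Icc 1 (X / q)).filter (fun n => ∀ p ∈ pz y, ¬ QS A B y q r p n)).card : ℝ) := by
      exact_mod_cast hr
    have h5 := (abs_le.1 h2).2
    have h6 : ((X / q : ℕ) : ℝ) * V ≤ W * (1 / q) := by
      have h7 : ((X / q : ℕ) : ℝ) ≤ (X : ℝ) / q := Nat.cast_div_le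
      calc ((X / q : ℕ) : ℝ) * V ≤ (X : ℝ) / q * V := mul_le_mul_of_nonneg_right h7 hV0
        _ = W * (1 / q) := by rw [hW]; ring
    linarith
  have hPqc : (Pq.card : ℝ) ≤ s := by
    have : Pq.card ≤ s := (card_filter_le _ _).trans (by rw [Nat.card_Ioc]; omega)
    exact_mod_cast this
  have hR1r : 5 * ((L : ℝ) * n) + 12 ≤ R1 := by exact_mod_cast hR1
  have hLn : (0 : ℝ) ≤ (L : ℝ) * n := by positivity
  have hbadM : ∀ M' : Finset ι, M'.Nonempty →
      ((S2.filter (fun m => ¬ ∑ h ∈ M', (A h * m + B h).primeFactors.card ≤ M'.card * R1)).card : ℝ) ≤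
      W / 4 := by
    intro M' hM'
    have hμ1 : 1 ≤ M'.card := hM'.card_pos
    have hμr : (1 : ℝ) ≤ M'.card := by exact_mod_cast hμ1
    obtain ⟨μ, hμ⟩ : ∃ μ : ℕ, μ = M'.card := ⟨_, rfl⟩
    rw [← hμ] at hμ1 hμr ⊢
    have hsum : (∑ m ∈ S, ∑ h ∈ M', ((A h * m + B h).primeFactors.card : ℝ)) ≤
        μ * (5 / 4 * W * (L * n) + 2 * E) + 2 * μ * S.card := by
      calc (∑ m ∈ S, ∑ h ∈ M', ((A h * m + B h).primeFactors.card : ℝ))
          ≤ ∑ m ∈ S, ∑ h ∈ M', (((Pq.filter (fun q => q ∣ A h * m + B h)).card : ℝ) + 2) := by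
            refine sum_le_sum fun m hm => sum_le_sum fun h _ => ?_
            exact_mod_cast hω m hm h
        _ = (∑ h ∈ M', ∑ q ∈ Pq, ((S.filter (fun m => q ∣ A h * m + B h)).card : ℝ)) +
            2 * μ * S.card := by
            simp only [sum_add_distrib, sum_const, nsmul_eq_mul]
            congr 1
            · rw [sum_comm]
              refine sum_congr rfl fun h _ => ?_
              simp only [card_filter, Nat.cast_sum]
              rw [sum_comm]
            · rw [← hμ]; ring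
        _ ≤ (∑ _h ∈ M', (5 / 4 * W * (L * n) + 2 * E)) + 2 * μ * S.card := by
            refine add_le_add (sum_le_sum fun h _ => ?_) le_rfl
            calc ∑ q ∈ Pq, ((S.filter (fun m => q ∣ A h * m + B h)).card : ℝ)
                ≤ ∑ q ∈ Pq, (1 + √(x : ℝ) + 5 / 4 * W * (1 / q)) :=
                  sum_le_sum fun q hq => hqcount h q hq
              _ = Pq.card * (1 + √(x : ℝ)) + 5 / 4 * W * ∑ q ∈ Pq, (1 : ℝ) / q := by
                  rw [sum_add_distrib, sum_const, nsmul_eq_mul, mul_sum]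
              _ ≤ s * (1 + √(x : ℝ)) + 5 / 4 * W * (L * n) := by
                  refine add_le_add (mul_le_mul_of_nonneg_right hPqc (by positivity))
                    (mul_le_mul_of_nonneg_left hrec (by positivity))
              _ ≤ _ := by linarith
        _ = _ := by
            rw [sum_const, nsmul_eq_mul, ← hμ]
    -- the bad arguments
    have hbad : ((S2.filter (fun m => ¬ ∑ h ∈ M', (A h * m + B h).primeFactors.card ≤ μ * R1)).card : ℝ) *
        (μ * R1) ≤ μ * (5 / 4 * W * (L * n) + 2 * E) + 2 * μ * S.card := by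
      refine le_trans ?_ hsum
      calc ((S2.filter (fun m => ¬ ∑ h ∈ M', (A h * m + B h).primeFactors.card ≤ μ * R1)).card : ℝ) *
          (μ * R1) = ∑ _m ∈ S2.filter (fun m => ¬ ∑ h ∈ M', (A h * m + B h).primeFactors.card ≤ μ * R1),
            ((μ : ℝ) * R1) := by rw [sum_const, nsmul_eq_mul]
        _ ≤ ∑ m ∈ S2.filter (fun m => ¬ ∑ h ∈ M', (A h * m + B h).primeFactors.card ≤ μ * R1),
            ∑ h ∈ M', ((A h * m + B h).primeFactors.card : ℝ) := by
            refine sum_le_sum fun m hm => ?_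
            have h1 := (mem_filter.1 hm).2
            have h2 : μ * R1 ≤ ∑ h ∈ M', (A h * m + B h).primeFactors.card := by omega
            exact_mod_cast h2
        _ ≤ _ := by
            apply sum_le_sum_of_subset_of_nonneg
            · exact (filter_subset _ _).trans (filter_subset _ _)
            · intro _ _ _
              exact sum_nonneg fun _ _ => Nat.cast_nonneg _
    set bd := ((S2.filter (fun m => ¬ ∑ h ∈ M', (A h * m + B h).primeFactors.card ≤ μ * R1)).card : ℝ)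
    have hR0 : (0 : ℝ) < R1 := by linarith
    have h1 : bd * R1 ≤ 5 / 4 * W * (L * n) + 2 * E + 2 * S.card := by
      have h2 : μ * (bd * R1) ≤ μ * (5 / 4 * W * (L * n) + 2 * E + 2 * S.card) := by
        linarith
      exact le_of_mul_le_mul_left h2 (by linarith)
    have h3 : 4 * E ≤ W / 12 := by
      have h4 : (48 : ℝ) * E ≤ 16 * (κ * (2 * CF + 3)) * E := by
        apply mul_le_mul_of_nonneg_right _ hE0
        have : (0 : ℝ) ≤ CF := Nat.cast_nonneg _
        nlinarith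
      linarith
    have h5 : bd * R1 ≤ W / 4 * R1 := by
      have h6 : W / 4 * (5 * (L * n) + 12) ≤ W / 4 * R1 :=
        mul_le_mul_of_nonneg_left hR1r (by linarith)
      have h7 : 5 / 4 * W * (L * n) + 2 * E + 2 * S.card ≤ W / 4 * (5 * (L * n) + 12) := by
        have : W / 4 * (5 * (L * n) + 12) = 5 / 4 * W * (L * n) + 3 * W := by ring
        rw [this]
        linarith
      linarith
    exact le_of_mul_le_mul_right h5 hR0
  have hb1 := hbadM univ (by
    rw [univ_nonempty_iff]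
    exact Fintype.card_pos_iff.1 (by omega))
  have hb2 := hbadM Mn hMn
  rw [card_univ, ← hκd] at hb1
  set G1 := S2.filter (fun m => ∑ h, (A h * m + B h).primeFactors.card ≤ κ * R1 ∧
    ∑ h ∈ Mn, (A h * m + B h).primeFactors.card ≤ Mn.card * R1) with hG1
  have hcov : S2 ⊆ G1 ∪ (S2.filter (fun m => ¬ ∑ h, (A h * m + B h).primeFactors.card ≤ κ * R1) ∪
      S2.filter (fun m => ¬ ∑ h ∈ Mn, (A h * m + B h).primeFactors.card ≤ Mn.card * R1)) := by
    intro m hm
    rw [mem_union, mem_union]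
    by_cases h1 : ∑ h, (A h * m + B h).primeFactors.card ≤ κ * R1
    · by_cases h2 : ∑ h ∈ Mn, (A h * m + B h).primeFactors.card ≤ Mn.card * R1
      · exact Or.inl (mem_filter.2 ⟨hm, h1, h2⟩)
      · exact Or.inr (Or.inr (mem_filter.2 ⟨hm, h2⟩))
    · exact Or.inr (Or.inl (mem_filter.2 ⟨hm, h1⟩))
  have hcard : (S2.card : ℝ) ≤ G1.card + (W / 4 + W / 4) := by
    have h1 := (card_le_card hcov).trans ((card_union_le _ _).trans
      (Nat.add_le_add_left (card_union_le _ _) _))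
    have h2 : (S2.card : ℝ) ≤ G1.card +
        (((S2.filter (fun m => ¬ ∑ h, (A h * m + B h).primeFactors.card ≤ κ * R1)).card : ℝ) +
        ((S2.filter (fun m => ¬ ∑ h ∈ Mn, (A h * m + B h).primeFactors.card ≤
          Mn.card * R1)).card : ℝ)) := by
      exact_mod_cast h1
    linarith
  have hsubf : G1 ⊆
      (Icc 1 X).filter (fun m => (∀ h, Squarefree (A h * m + B h)) ∧
        ∑ h, (A h * m + B h).primeFactors.card ≤ κ * R1 ∧
        ∑ h ∈ Mn, (A h * m + B h).primeFactors.card ≤ Mn.card * R1) := by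
    intro m hm
    rw [hG1, mem_filter, hS2d, mem_filter, hS, mem_filter] at hm
    rw [mem_filter]
    exact ⟨hm.1.1.1, hm.1.2, hm.2⟩
  have hfin2 : (G1.card : ℝ) ≤
      (((Icc 1 X).filter (fun m => (∀ h, Squarefree (A h * m + B h)) ∧
        ∑ h, (A h * m + B h).primeFactors.card ≤ κ * R1 ∧
        ∑ h ∈ Mn, (A h * m + B h).primeFactors.card ≤ Mn.card * R1)).card : ℝ) := by
    exact_mod_cast card_le_card hsubf
  refine le_trans ?_ hfin2
  have h8 : E + κ * (E + 2 * CF * E) ≤ W / 16 := by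
    have h9 : E ≤ κ * E := by nlinarith
    have h10 : E + κ * (E + 2 * CF * E) ≤ κ * (2 * CF + 3) * E := by
      have : κ * (2 * CF + 3) * E = κ * E + κ * (E + 2 * CF * E) + κ * E := by ring
      rw [this]
      have : 0 ≤ κ * E := by positivity
      linarith
    linarith
  linarith

end Pool.Agent.Y887.DK
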