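import Mathlib
import Pool.Agent.Y887.TD.Asm
import Pool.Agent.Y887.DK.Gad
import Pool.Agent.Y887.DK.Pair
import Pool.Agent.Y887.DK.Forms
import Pool.Agent.Y887.DK.SieveD

/-!
Assembly.
-/

set_option autoImplicit false

namespace Pool.Agent.Y887.DK

open Finset Filter Pool.Agent.Y887.TD

/-- the properties of the values of the forms at the integers which are produced -/
def GoodN {r : ℕ} {Γ : Type} [CommGroup Γ] (a : Fin r → ℕ) (b : Fin r → ℤ) (s t : Fin r) (q : ℕ)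
    (c : ℤ) (M : ℕ) (f : ℕ → Γ) (γ : Γ) (K n : ℕ) : Prop :=
  (q : ℤ) ∣ n - c ∧ (∀ u, 0 < a u * (n : ℤ) + b u ∧
    (∀ p : ℕ, p.Prime → p ≤ M → ¬ (p : ℤ) ∣ a u * (n : ℤ) + b u) ∧
    ArithmeticFunction.cardFactors (a u * (n : ℤ) + b u).toNat ≤ K) ∧
  Fm f (a s * (n : ℤ) + b s).toNat = γ * Fm f (a t * (n : ℤ) + b t).toNat

theorem log_aux {C1 r k n : ℕ} (hk : 1 ≤ k) (hn0 : n ≤ (r + 2) * (k * k)) :
    8 * (C1 * (Nat.log 2 n + 1)) ≤
      8 * (C1 * (Nat.log 2 (r + 2) + 3)) * (Nat.log 2 (2 * k) + 1) := by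
  have h1 : Nat.log 2 n ≤ Nat.log 2 (r + 2) + 2 * Nat.log 2 k + 2 :=
    (Nat.log_mono_right hn0).trans (two_log_le (r + 2) k hk (by omega))
  have h2 : Nat.log 2 (2 * k) = Nat.log 2 k + 1 := by
    rw [mul_comm]
    exact Nat.log_mul_base (by norm_num) (by omega)
  rw [h2]
  have h3 : Nat.log 2 n + 1 ≤ (Nat.log 2 (r + 2) + 3) * (Nat.log 2 k + 1 + 1) := by
    nlinarith [Nat.zero_le (Nat.log 2 (r + 2) * Nat.log 2 k)]
  calc 8 * (C1 * (Nat.log 2 n + 1)) ≤
        8 * (C1 * ((Nat.log 2 (r + 2) + 3) * (Nat.log 2 k + 1 + 1))) := by gcongr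
    _ = _ := by ring

theorem few_big2 {k R1 R : ℕ} (hR : 8 * R1 ≤ R) (ω : Fin k → ℕ) (h : ∑ i, ω i ≤ (k + k) * R1) :
    3 * k ≤ 4 * (univ.filter (fun i => ω i ≤ R)).card := by
  refine (few_big ω h).trans (Nat.mul_le_mul_left _ (card_le_card ?_))
  intro i hi
  rw [mem_filter] at hi ⊢
  exact ⟨hi.1, hi.2.trans hR⟩

set_option maxHeartbeats 8000000 in
theorem pointwise2 {r : ℕ} (a : Fin r → ℕ) (b : Fin r → ℤ) (ha : ∀ u, 1 ≤ a u)
    (hadm : ∀ p : ℕ, p.Prime → ∃ n : ℤ, ∀ u, ¬ (p : ℤ) ∣ a u * n + b u)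
    (s t : Fin r) (hdets : ∀ u, u ≠ s → (a s : ℤ) * b u ≠ a u * b s)
    (hdett : ∀ u, u ≠ t → (a t : ℤ) * b u ≠ a u * b t)
    (hst : (a s : ℤ) * b t < a t * b s)
    (q : ℕ) (c : ℤ) (hq : 1 ≤ q) (hc : ∀ u, IsCoprime (a u * c + b u) (q : ℤ)) (M : ℕ)
    {Γ : Type} [CommGroup Γ] (f : ℕ → Γ) (hf0 : f 0 = 1) {w : ℕ} (α β : Fin w → ℕ)
    (hα : ∀ y, 1 ≤ α y) (hβ : ∀ y, 1 ≤ β y) (hαβ : ∀ y, α y ≠ β y)
    (hgad : ∏ y, (f (β y - α y) * f (α y)) = f 1 * ∏ y, (f (α y - β y) * f (β y)))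
    (γ : Γ) (U V : List ℕ) (hU : ∀ k ∈ U, 1 ≤ k) (hV : ∀ k ∈ V, 1 ≤ k)
    (hUV : (U.map f).prod = γ * (V.map f).prod) :
    ∃ K : ℕ, ∀ᶠ X : ℕ in atTop, (X : ℝ) / Real.log X ^ K ≤
      ({n : ℕ | n ≤ X ∧ GoodN a b s t q c M f γ K n}.ncard : ℝ) := by
  classical
  obtain ⟨C1, hC1, hsieve⟩ := sieve_main2
  obtain ⟨Cc, hCc⟩ : ∃ Cc : ℕ, Cc = 8 * (C1 * (Nat.log 2 (r + 2) + 3)) := ⟨_, rfl⟩
  have hCc1 : 1 ≤ Cc := by
    rw [hCc]
    nlinarith
  obtain ⟨k, R, hk, hR, cc, -, hco⟩ := coincidence Cc hCc1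
  obtain ⟨Q0, hQ0⟩ : ∃ Q0 : ℕ, Q0 = M + k + 2 * ((r + 2) * (k * k)) := ⟨_, rfl⟩
  obtain ⟨W, n0, hW1, hqW, hWp, hn0c, hn0⟩ := setup a b ha hadm q c hq hc Q0
  obtain ⟨B, hBz⟩ : ∃ B : Fin r → ℕ, ∀ u, (B u : ℤ) = a u * n0 + b u :=
    ⟨fun u => (a u * (n0 : ℤ) + b u).toNat, fun u => Int.toNat_of_nonneg (hn0 u).1.le⟩
  have hB1 : ∀ u, 1 ≤ B u := by
    intro u
    have := (hn0 u).1
    rw [← hBz u] at this
    exact_mod_cast this
  have hBW : ∀ u, Nat.Coprime (B u) W := by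
    intro u
    have := (hn0 u).2
    rw [← hBz u] at this
    exact Nat.isCoprime_iff_coprime.1 this
  have haB0 : ∀ u, Nat.Coprime (a u) (B u) := by
    intro u
    apply Nat.coprime_of_dvd
    intro p hp hpa hpB
    obtain ⟨n, hn⟩ := hadm p hp
    apply hn u
    have h1 : (p : ℤ) ∣ (a u : ℤ) := by exact_mod_cast hpa
    have h2 : (p : ℤ) ∣ (B u : ℤ) := by exact_mod_cast hpB
    rw [hBz] at h2
    exact dvd_add (h1.mul_right _) ((dvd_add_right (h1.mul_right _)).1 h2)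
  have haB : ∀ u, Nat.Coprime (a u * W) (B u) := fun u =>
    Nat.Coprime.mul_left (haB0 u) (hBW u).symm
  obtain ⟨δ, hδ1, hδ⟩ : ∃ δ : ℕ, 1 ≤ δ ∧ a t * B s = a s * B t + δ := by
    have h1 : (a s : ℤ) * B t < a t * B s := by
      rw [hBz, hBz]
      nlinarith
    have h2 : a s * B t < a t * B s := by exact_mod_cast h1
    exact ⟨a t * B s - a s * B t, by omega, by omega⟩
  -- the modulus
  obtain ⟨ds, hds⟩ : ∃ ds : Fin r → ℕ, ∀ u, ds u = if u = s then 1 else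
    ((a s : ℤ) * b u - a u * b s).natAbs := ⟨_, fun u => rfl⟩
  obtain ⟨dt, hdt⟩ : ∃ dt : Fin r → ℕ, ∀ u, dt u = if u = t then 1 else
    ((a t : ℤ) * b u - a u * b t).natAbs := ⟨_, fun u => rfl⟩
  have hds1 : ∀ u, 1 ≤ ds u := by
    intro u
    rw [hds]
    split_ifs with h
    · exact le_rfl
    · have := Int.natAbs_pos.2 (sub_ne_zero.2 (hdets u h))
      exact this
  have hdt1 : ∀ u, 1 ≤ dt u := by
    intro u
    rw [hdt]
    split_ifs with h
    · exact le_rfl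
    · have := Int.natAbs_pos.2 (sub_ne_zero.2 (hdett u h))
      exact this
  obtain ⟨Λ, hΛ⟩ : ∃ Λ : ℕ, Λ = W * (a t * B s) * (a s * B t) * δ * (∏ u, a u) * (∏ u, B u) *
    (∏ u, ds u) * (∏ u, dt u) := ⟨_, rfl⟩
  have hP1 : 1 ≤ a t * B s := Nat.mul_le_mul (ha t) (hB1 s)
  have hQ1 : 1 ≤ a s * B t := Nat.mul_le_mul (ha s) (hB1 t)
  have hΛ1 : 1 ≤ Λ := by
    have e1 : 0 < ∏ u, a u := prod_pos fun u _ => ha u
    have e2 : 0 < ∏ u, B u := prod_pos fun u _ => hB1 u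
    have e3 : 0 < ∏ u, ds u := prod_pos fun u _ => hds1 u
    have e4 : 0 < ∏ u, dt u := prod_pos fun u _ => hdt1 u
    have e5 : 0 < Λ := by
      rw [hΛ]
      exact Nat.mul_pos (Nat.mul_pos (Nat.mul_pos (Nat.mul_pos (Nat.mul_pos (Nat.mul_pos
        (Nat.mul_pos hW1 hP1) hQ1) hδ1) e1) e2) e3) e4
    exact e5
  have hΛW : W ∣ Λ := ⟨(a t * B s) * (a s * B t) * δ * (∏ u, a u) * (∏ u, B u) *
    (∏ u, ds u) * (∏ u, dt u), by rw [hΛ]; ring⟩
  have hΛP : a t * B s ∣ Λ := ⟨W * (a s * B t) * δ * (∏ u, a u) * (∏ u, B u) *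
    (∏ u, ds u) * (∏ u, dt u), by rw [hΛ]; ring⟩
  have hΛQ : a s * B t ∣ Λ := ⟨W * (a t * B s) * δ * (∏ u, a u) * (∏ u, B u) *
    (∏ u, ds u) * (∏ u, dt u), by rw [hΛ]; ring⟩
  have hΛδ : δ ∣ Λ := ⟨W * (a t * B s) * (a s * B t) * (∏ u, a u) * (∏ u, B u) *
    (∏ u, ds u) * (∏ u, dt u), by rw [hΛ]; ring⟩
  have hΛB : ∀ u, B u ∣ Λ := by
    intro u
    obtain ⟨c', hc'⟩ := dvd_prod_of_mem B (mem_univ u)
    exact ⟨W * (a t * B s) * (a s * B t) * δ * (∏ u, a u) * c' * (∏ u, ds u) * (∏ u, dt u),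
      by rw [hΛ, hc']; ring⟩
  have hΛa : ∀ u, a u * W ∣ Λ := by
    intro u
    obtain ⟨c', hc'⟩ := dvd_prod_of_mem a (mem_univ u)
    exact ⟨(a t * B s) * (a s * B t) * δ * c' * (∏ u, B u) * (∏ u, ds u) * (∏ u, dt u),
      by rw [hΛ, hc']; ring⟩
  have hΛs : ∀ u, u ≠ s → ((a s : ℤ) * B u - a u * B s) ∣ (Λ : ℤ) := by
    intro u hu
    obtain ⟨c', hc'⟩ := dvd_prod_of_mem ds (mem_univ u)
    have h1 : ds u ∣ Λ := ⟨W * (a t * B s) * (a s * B t) * δ * (∏ u, a u) * (∏ u, B u) * c' *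
      (∏ u, dt u), by rw [hΛ, hc']; ring⟩
    have h2 : (a s : ℤ) * B u - a u * B s = (a s : ℤ) * b u - a u * b s := by
      rw [hBz, hBz]; ring
    rw [h2]
    rw [hds, if_neg hu] at h1
    exact Int.natAbs_dvd.1 (by exact_mod_cast h1)
  have hΛt : ∀ u, u ≠ t → ((a t : ℤ) * B u - a u * B t) ∣ (Λ : ℤ) := by
    intro u hu
    obtain ⟨c', hc'⟩ := dvd_prod_of_mem dt (mem_univ u)
    have h1 : dt u ∣ Λ := ⟨W * (a t * B s) * (a s * B t) * δ * (∏ u, a u) * (∏ u, B u) *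
      (∏ u, ds u) * c', by rw [hΛ, hc']; ring⟩
    have h2 : (a t : ℤ) * B u - a u * B t = (a t : ℤ) * b u - a u * b t := by
      rw [hBz, hBz]; ring
    rw [h2]
    rw [hdt, if_neg hu] at h1
    exact Int.natAbs_dvd.1 (by exact_mod_cast h1)
  -- the construction
  obtain ⟨x, z, g, hx0, hz0, hxinj, hzinj, hid, hg0, hgx, hgz, hxΛ, hzΛ, hgΛ, hcom, hFm⟩ :=
    construct2 (κ := Σ p : Fin k × Fin k, Fin (cc p.1 p.2) × Fin w) (fun y => y.1.1)
      (fun y => y.1.2) (fun y => α y.2.2) (fun y => β y.2.2) (fun y => hα _) (fun y => hβ _)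
      (fun y => hαβ _) (a t * B s) (a s * B t) δ Λ hP1 hQ1 hδ1 hδ hΛ1 hΛP hΛQ hΛδ
      (fun p hp hpk => (hWp p hp (by omega)).trans hΛW)
  have hprim : ∀ y : ℕ, (Λ : ℤ) ∣ (y : ℤ) - 1 → ∀ p : ℕ, p.Prime → p ∣ y → ¬ p ∣ Λ := by
    intro y hy p hp hpy hpΛ
    have h1 : (p : ℤ) ∣ (Λ : ℤ) := by exact_mod_cast hpΛ
    have h2 : (p : ℤ) ∣ (y : ℤ) := by exact_mod_cast hpy
    have h3 : (p : ℤ) ∣ 1 := by
      have := dvd_sub h2 (h1.trans hy)
      rwa [sub_sub_cancel] at this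
    have h4 : p ∣ 1 := by exact_mod_cast h3
    exact hp.one_lt.ne' (Nat.dvd_one.1 h4)
  obtain ⟨zg, hzgd⟩ : ∃ zg : Fin k → Fin k → ℕ, ∀ i j, zg i j = z j / g i j := ⟨_, fun _ _ => rfl⟩
  obtain ⟨xg, hxgd⟩ : ∃ xg : Fin k → Fin k → ℕ, ∀ i j, xg i j = x i / g i j := ⟨_, fun _ _ => rfl⟩
  have hzg : ∀ i j, z j = zg i j * g i j := fun i j => by
    rw [hzgd]; exact (Nat.div_mul_cancel (hgz i j)).symm
  have hxg : ∀ i j, x i = xg i j * g i j := fun i j => by
    rw [hxgd]; exact (Nat.div_mul_cancel (hgx i j)).symm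
  have hzg0 : ∀ i j, 0 < zg i j := fun i j => by
    have h1 := hz0 j
    rw [hzg i j] at h1
    exact Nat.pos_of_mul_pos_right h1
  have hxg0 : ∀ i j, 0 < xg i j := fun i j => by
    have h1 := hx0 i
    rw [hxg i j] at h1
    exact Nat.pos_of_mul_pos_right h1
  have hκex : ∀ i j, ∃ κ : ℕ, zg i j = 1 + (a s * W) * κ := by
    intro i j
    have h1 : (Λ : ℤ) ∣ (zg i j : ℤ) - 1 := by
      have e : (zg i j : ℤ) - 1 = ((z j : ℤ) - 1) - zg i j * ((g i j : ℤ) - 1) := by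
        have : (z j : ℤ) = zg i j * g i j := by exact_mod_cast hzg i j
        rw [this]; ring
      rw [e]
      exact dvd_sub (hzΛ j) ((hgΛ i j).mul_left _)
    have h2 : ((a s * W : ℕ) : ℤ) ∣ ((zg i j - 1 : ℕ) : ℤ) := by
      rw [Nat.cast_sub (hzg0 i j), Nat.cast_one]
      exact (Int.natCast_dvd_natCast.2 (hΛa s)).trans h1
    obtain ⟨κ, hκ⟩ := Int.natCast_dvd_natCast.1 h2
    exact ⟨κ, by have := hzg0 i j; omega⟩
  choose κ hκ using hκex
  have hpair := fun i j => pair_id (ha s) (hg0 i j) hδ (hid i j) (hzg i j) (hxg i j) (hκ i j)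
  -- the forms
  obtain ⟨pL, hpL⟩ : ∃ pL : Fin k → ℕ × ℕ, ∀ i, pL i = (a s * W * x i, B s) := ⟨_, fun _ => rfl⟩
  obtain ⟨pM, hpM⟩ : ∃ pM : Fin k → ℕ × ℕ, ∀ j, pM j = (a t * W * z j, B t) := ⟨_, fun _ => rfl⟩
  obtain ⟨pN, hpN⟩ : ∃ pN : Fin k → Fin k → Fin r → ℕ × ℕ, ∀ i j u, pN i j u =
    (a u * W * (zg i j * x i), a u * W * κ i j * B s + B u) := ⟨_, fun _ _ _ => rfl⟩
  obtain ⟨FS, hFS⟩ : ∃ FS : Finset (ℕ × ℕ), FS = univ.image pL ∪ univ.image pM ∪
    ((univ : Finset (Fin k × Fin k × Fin r)).filter (fun y => y.2.2 ≠ s ∧ y.2.2 ≠ t)).image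
      (fun y => pN y.1 y.2.1 y.2.2) := ⟨_, rfl⟩
  have hLF : ∀ i, pL i ∈ FS := fun i => by
    rw [hFS, mem_union, mem_union, mem_image]
    exact Or.inl (Or.inl ⟨i, mem_univ _, rfl⟩)
  have hMF : ∀ j, pM j ∈ FS := fun j => by
    rw [hFS, mem_union, mem_union, mem_image, mem_image]
    exact Or.inl (Or.inr ⟨j, mem_univ _, rfl⟩)
  have hNF : ∀ i j u, u ≠ s → u ≠ t → pN i j u ∈ FS := fun i j u h1 h2 => by
    rw [hFS, mem_union]
    refine Or.inr (mem_image.2 ⟨(i, j, u), mem_filter.2 ⟨mem_univ _, h1, h2⟩, rfl⟩)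
  have hFSp : ∀ h ∈ FS, 1 ≤ h.1 ∧ 1 ≤ h.2 ∧ Nat.Coprime h.1 h.2 ∧ W ∣ h.1 := by
    intro h hh
    rw [hFS, mem_union, mem_union, mem_image, mem_image, mem_image] at hh
    rcases hh with (⟨i, -, rfl⟩ | ⟨j, -, rfl⟩) | ⟨⟨i, j, u⟩, hu, rfl⟩
    · rw [hpL]
      refine ⟨Nat.mul_le_mul (Nat.mul_le_mul (ha s) hW1) (hx0 i), hB1 s,
        Nat.Coprime.mul_left (haB s) ?_, ⟨a s * x i, by simp only; ring⟩⟩
      apply Nat.coprime_of_dvd
      intro p hp h1 h2
      exact hprim _ (hxΛ i) p hp h1 (h2.trans (hΛB s))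
    · rw [hpM]
      refine ⟨Nat.mul_le_mul (Nat.mul_le_mul (ha t) hW1) (hz0 j), hB1 t,
        Nat.Coprime.mul_left (haB t) ?_, ⟨a t * z j, by simp only; ring⟩⟩
      apply Nat.coprime_of_dvd
      intro p hp h1 h2
      exact hprim _ (hzΛ j) p hp h1 (h2.trans (hΛB t))
    · rw [mem_filter] at hu
      obtain ⟨-, hus, hut⟩ := hu
      simp only at hus hut ⊢
      rw [hpN]
      refine ⟨Nat.mul_le_mul (Nat.mul_le_mul (ha u) hW1) (Nat.mul_le_mul (hzg0 i j) (hx0 i)),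
        (hB1 u).trans (Nat.le_add_left _ _), ?_, ⟨a u * (zg i j * x i), by simp only; ring⟩⟩
      apply cop_N (as := a s) (bt := a t) (Bt := B t) (z := z j) (g := g i j) (xg := xg i j)
        (Λ := Λ) (haB u) (hprim _ (hxΛ i)) (hprim _ (hzΛ j)) (hΛB u) (hΛa s) (hΛs u hus)
        (hΛt u hut) (hzg i j) (hxg i j) (hκ i j) (hpair i j).2.1
      intro p hp h1 h2
      have h3 := (hcom i j p hp h1 h2).2
      rw [← hxgd, ← hzgd] at h3
      exact h3
  -- the index type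
  obtain ⟨hL, hLv⟩ : ∃ hL : Fin k → {h : ℕ × ℕ // h ∈ FS}, ∀ i, (hL i).1 = pL i :=
    ⟨fun i => ⟨pL i, hLF i⟩, fun _ => rfl⟩
  obtain ⟨hM, hMv⟩ : ∃ hM : Fin k → {h : ℕ × ℕ // h ∈ FS}, ∀ j, (hM j).1 = pM j :=
    ⟨fun j => ⟨pM j, hMF j⟩, fun _ => rfl⟩
  have hLinj : Function.Injective hL := by
    intro i i' h
    have h1 : pL i = pL i' := by rw [← hLv, ← hLv, h]
    rw [hpL, hpL, Prod.mk.injEq] at h1
    exact hxinj (Nat.eq_of_mul_eq_mul_left (Nat.mul_pos (ha s) hW1) h1.1)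
  have hMinj : Function.Injective hM := by
    intro i i' h
    have h1 : pM i = pM i' := by rw [← hMv, ← hMv, h]
    rw [hpM, hpM, Prod.mk.injEq] at h1
    exact hzinj (Nat.eq_of_mul_eq_mul_left (Nat.mul_pos (ha t) hW1) h1.1)
  have hLM : ∀ i j, hL i ≠ hM j := by
    intro i j h
    have h1 : pL i = pM j := by rw [← hLv, ← hMv, h]
    rw [hpL, hpM, Prod.mk.injEq] at h1
    obtain ⟨h2, h3⟩ := h1
    have h4 : W * (a s * x i) = W * (a t * z j) := by
      calc W * (a s * x i) = a s * W * x i := by ring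
        _ = a t * W * z j := h2
        _ = _ := by ring
    have h5 : a s * x i = a t * z j := Nat.eq_of_mul_eq_mul_left hW1 h4
    have h6 := hid i j
    have h7 : a t * B s * z j = a s * B t * x i := by
      calc a t * B s * z j = (a t * z j) * B s := by ring
        _ = (a s * x i) * B t := by rw [← h5, h3]
        _ = _ := by ring
    have h8 : 0 < δ * g i j := Nat.mul_pos hδ1 (hg0 i j)
    omega
  have hcardι : Fintype.card {h : ℕ × ℕ // h ∈ FS} ≤ (r + 2) * (k * k) := by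
    rw [Fintype.card_coe, hFS]
    refine (card_union_le _ _).trans ?_
    have e1 : (univ.image pL ∪ univ.image pM).card ≤ k + k := by
      refine (card_union_le _ _).trans ?_
      have e2 : (univ.image pL).card ≤ k := card_image_le.trans (by simp)
      have e3 : (univ.image pM).card ≤ k := card_image_le.trans (by simp)
      omega
    have e4 : (((univ : Finset (Fin k × Fin k × Fin r)).filter
        (fun y => y.2.2 ≠ s ∧ y.2.2 ≠ t)).image (fun y => pN y.1 y.2.1 y.2.2)).card ≤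
        k * (k * r) := by
      refine card_image_le.trans ((card_filter_le _ _).trans ?_)
      rw [card_univ, Fintype.card_prod, Fintype.card_prod, Fintype.card_fin, Fintype.card_fin]
    nlinarith
  -- the prescribed exponents
  choose lx hlx1 hlx2 using fun i => Fm_list (x i)
  choose lz hlz1 hlz2 using fun j => Fm_list (z j)
  obtain ⟨ex, hexL, hexM, hex1⟩ : ∃ ex : {h : ℕ × ℕ // h ∈ FS} → List ℕ,
      (∀ i, ex (hL i) = lx i ++ U) ∧ (∀ j, ex (hM j) = lz j ++ (V ++ List.replicate R 1)) ∧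
      ∀ h, ∀ n ∈ ex h, 1 ≤ n := by
    refine ⟨fun h => if H : ∃ i, hL i = h then lx H.choose ++ U else
      if H : ∃ j, hM j = h then lz H.choose ++ (V ++ List.replicate R 1) else [], ?_, ?_, ?_⟩
    · intro i
      have H : ∃ i', hL i' = hL i := ⟨i, rfl⟩
      have h1 : H.choose = i := hLinj H.choose_spec
      simp only
      rw [dif_pos H, h1]
    · intro j
      have H : ∃ j', hM j' = hM j := ⟨j, rfl⟩
      have h1 : H.choose = j := hMinj H.choose_spec
      have H' : ¬ ∃ i, hL i = hM j := fun ⟨i, hi⟩ => hLM i j hi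
      simp only
      rw [dif_neg H', dif_pos H, h1]
    · intro h n hn
      simp only at hn
      split_ifs at hn with H H'
      · rcases List.mem_append.1 hn with h1 | h1
        · exact hlx1 _ n h1
        · exact hU n h1
      · rcases List.mem_append.1 hn with h1 | h1
        · exact hlz1 _ n h1
        · rcases List.mem_append.1 h1 with h2 | h2
          · exact hV n h2
          · rw [List.eq_of_mem_replicate h2]
      · simp at hn
  obtain ⟨T, hT⟩ : ∃ T : ℕ, T = (∑ h : {h : ℕ × ℕ // h ∈ FS}, h.1.1) *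
    (1 + ∑ h : {h : ℕ × ℕ // h ∈ FS}, h.1.2) := ⟨_, rfl⟩
  have hCs : ∀ h : {h : ℕ × ℕ // h ∈ FS}, h.1.1 ≤ ∑ h : {h : ℕ × ℕ // h ∈ FS}, h.1.1 := fun h =>
    single_le_sum (f := fun h : {h : ℕ × ℕ // h ∈ FS} => h.1.1) (fun _ _ => Nat.zero_le _)
      (mem_univ h)
  have hDs : ∀ h : {h : ℕ × ℕ // h ∈ FS}, h.1.2 ≤ ∑ h : {h : ℕ × ℕ // h ∈ FS}, h.1.2 := fun h =>
    single_le_sum (f := fun h : {h : ℕ × ℕ // h ∈ FS} => h.1.2) (fun _ _ => Nat.zero_le _)
      (mem_univ h)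
  have hT1 : ∀ h h' : {h : ℕ × ℕ // h ∈ FS}, h.1.1 * h'.1.2 ≤ T := fun h h' => by
    rw [hT]
    exact Nat.mul_le_mul (hCs h) ((hDs h').trans (by omega))
  have hT2 : ∀ h : {h : ℕ × ℕ // h ∈ FS}, h.1.1 ≤ T := fun h => by
    rw [hT]
    exact (hCs h).trans (Nat.le_mul_of_pos_right _ (by omega))
  obtain ⟨N0, E, rr, A', B', hE1, hrp, hrinj, hrT, hval, hA'1, hB'1, hcop', hCA, hrA, hsmall⟩ :=
    exists_forms2 (ι := {h : ℕ × ℕ // h ∈ FS}) (fun h => h.1.1) (fun h => h.1.2)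
      (fun h => (hFSp h.1 h.2).1) (fun h => (hFSp h.1 h.2).2.1) (fun h => (hFSp h.1 h.2).2.2.1)
      (by
        intro h h' hne heq
        apply hne
        have c1 := (hFSp h.1 h.2).2.2.1
        have c2 := (hFSp h'.1 h'.2).2.2.1
        have d1 : h.1.1 ∣ h'.1.1 := c1.dvd_of_dvd_mul_right ⟨h'.1.2, heq.symm⟩
        have d2 : h'.1.1 ∣ h.1.1 := c2.dvd_of_dvd_mul_right ⟨h.1.2, heq⟩
        have e1 : h.1.1 = h'.1.1 := Nat.dvd_antisymm d1 d2
        have e2 : h.1.2 = h'.1.2 := by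
          have h0 := (hFSp h.1 h.2).1
          rw [← e1] at heq
          exact (Nat.eq_of_mul_eq_mul_left h0 heq).symm
        exact Subtype.ext (Prod.ext e1 e2))
      (fun p hp hle h => (hWp p hp (by
        have := hle.trans hcardι
        omega)).trans (hFSp h.1 h.2).2.2.2)
      (τ := Σ h : {h : ℕ × ℕ // h ∈ FS}, Fin (ex h).length) (fun y => y.1)
      (fun y => (ex y.1).get y.2) (fun y => hex1 _ _ (List.get_mem _ _)) T hT1 hT2
  -- the sieve
  obtain ⟨Mn, hMn⟩ : ∃ Mn : Finset {h : ℕ × ℕ // h ∈ FS}, Mn = univ.image hL ∪ univ.image hM :=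
    ⟨_, rfl⟩
  have hdisj : Disjoint (univ.image hL) (univ.image hM) := by
    rw [disjoint_left]
    intro h h1 h2
    obtain ⟨i, -, rfl⟩ := mem_image.1 h1
    obtain ⟨j, -, hj⟩ := mem_image.1 h2
    exact hLM i j hj.symm
  have hMncard : Mn.card = k + k := by
    rw [hMn, card_union_of_disjoint hdisj, card_image_of_injective _ hLinj,
      card_image_of_injective _ hMinj]
    simp
  have hMnsum : ∀ ω : {h : ℕ × ℕ // h ∈ FS} → ℕ, ∑ h ∈ Mn, ω h = ∑ i, ω (hL i) + ∑ j, ω (hM j) := by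
    intro ω
    rw [hMn, sum_union hdisj, sum_image (fun i _ j _ h => hLinj h),
      sum_image (fun i _ j _ h => hMinj h)]
  have hMnne : Mn.Nonempty := by
    rw [← card_pos, hMncard]
    omega
  have hcard1 : 1 ≤ Fintype.card {h : ℕ × ℕ // h ∈ FS} := Fintype.card_pos_iff.2 ⟨hL ⟨0, hk⟩⟩
  obtain ⟨K1, hK1⟩ := hsieve {h : ℕ × ℕ // h ∈ FS} hcard1 Mn hMnne A' B' hB'1 hcop'
    (fun p hp hle h => ((hWp p hp (by omega)).trans (hFSp h.1 h.2).2.2.2).trans (hCA h))
  obtain ⟨R1, hR1⟩ : ∃ R1 : ℕ, R1 = C1 * (Nat.log 2 (Fintype.card {h : ℕ × ℕ // h ∈ FS}) + 1) :=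
    ⟨_, rfl⟩
  rw [← hR1, hMncard] at hK1
  have h8R : 8 * R1 ≤ R := by
    rw [hR1, hR, hCc]
    exact log_aux hk hcardι
  -- the numbers produced
  obtain ⟨ν, hν⟩ : ∃ ν : Fin k → Fin k → ℕ → ℕ, ∀ i j m, ν i j m =
    n0 + W * (κ i j * B s + zg i j * x i * (N0 + E * m)) := ⟨_, fun _ _ _ => rfl⟩
  obtain ⟨K2, hK2⟩ : ∃ K2 : ℕ, K2 = T + (∑ y : (Σ h : {h : ℕ × ℕ // h ∈ FS}, Fin (ex h).length),
    (ex y.1).get y.2) + Fintype.card {h : ℕ × ℕ // h ∈ FS} * R1 := ⟨_, rfl⟩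
  have hform : ∀ i j m u, (a u : ℤ) * (ν i j m : ℤ) + b u =
      ((a u * W * (κ i j * B s + zg i j * x i * (N0 + E * m)) + B u : ℕ) : ℤ) := by
    intro i j m u
    rw [hν]
    push_cast
    rw [hBz u]
    ring
  refine ⟨max (K1 + 1) K2, ?_⟩
  apply count_map k (∑ i, ∑ j, (n0 + W * (κ i j * B s + zg i j * x i * (N0 + E))) + 1) K1 ν
    (fun m => (∀ h, Squarefree (A' h * m + B' h)) ∧
      ∑ h, (A' h * m + B' h).primeFactors.card ≤ Fintype.card {h : ℕ × ℕ // h ∈ FS} * R1 ∧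
      ∑ h ∈ Mn, (A' h * m + B' h).primeFactors.card ≤ (k + k) * R1)
    (GoodN a b s t q c M f γ (max (K1 + 1) K2)) hk (Nat.le_add_left _ _) ?_ ?_ _ ?_ hK1 ?_ _
    (le_max_left _ _)
  · -- injectivity
    intro i j m m' h
    rw [hν, hν] at h
    have h1 := Nat.eq_of_mul_eq_mul_left hW1 (Nat.add_left_cancel h)
    have h2 := Nat.eq_of_mul_eq_mul_left (Nat.mul_pos (hzg0 i j) (hx0 i)) (Nat.add_left_cancel h1)
    exact Nat.eq_of_mul_eq_mul_left hE1 (Nat.add_left_cancel h2)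
  · intro i j m hm
    rw [hν]
    have h1 : n0 + W * (κ i j * B s + zg i j * x i * (N0 + E * m)) ≤
        (n0 + W * (κ i j * B s + zg i j * x i * (N0 + E))) * m := by
      have e1 : n0 ≤ n0 * m := Nat.le_mul_of_pos_right _ hm
      have e2 : W * (κ i j * B s) ≤ W * (κ i j * B s) * m := Nat.le_mul_of_pos_right _ hm
      have e3 : W * (zg i j * x i) * N0 ≤ W * (zg i j * x i) * N0 * m :=
        Nat.le_mul_of_pos_right _ hm
      calc n0 + W * (κ i j * B s + zg i j * x i * (N0 + E * m)) =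
            n0 + W * (κ i j * B s) + W * (zg i j * x i) * N0 + W * (zg i j * x i) * E * m := by ring
        _ ≤ n0 * m + W * (κ i j * B s) * m + W * (zg i j * x i) * N0 * m +
            W * (zg i j * x i) * E * m := by omega
        _ = _ := by ring
    refine h1.trans (Nat.mul_le_mul_right _ ?_)
    have h2 : n0 + W * (κ i j * B s + zg i j * x i * (N0 + E)) ≤
        ∑ j, (n0 + W * (κ i j * B s + zg i j * x i * (N0 + E))) :=
      single_le_sum (f := fun j => n0 + W * (κ i j * B s + zg i j * x i * (N0 + E)))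
        (fun _ _ => Nat.zero_le _) (mem_univ j)
    have h3 : ∑ j, (n0 + W * (κ i j * B s + zg i j * x i * (N0 + E))) ≤
        ∑ i, ∑ j, (n0 + W * (κ i j * B s + zg i j * x i * (N0 + E))) :=
      single_le_sum (f := fun i => ∑ j, (n0 + W * (κ i j * B s + zg i j * x i * (N0 + E))))
        (fun _ _ => Nat.zero_le _) (mem_univ i)
    exact (h2.trans h3).trans (Nat.le_add_right _ _)
  · intro X m hm
    rw [mem_filter, mem_Icc] at hm
    exact ⟨hm.1.1, hm.1.2, hm.2⟩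
  · rintro m hm ⟨hsq, hall, hmain⟩
    rw [hMnsum] at hmain
    have hS := few_big2 h8R (fun i => (A' (hL i) * m + B' (hL i)).primeFactors.card)
      ((Nat.le_add_right _ _).trans hmain)
    have hS' := few_big2 h8R (fun i => (A' (hM i) * m + B' (hM i)).primeFactors.card)
      ((Nat.le_add_left _ _).trans hmain)
    obtain ⟨i, -, j, -, hij⟩ := hco _ _
      (fun i => (A' (hL i) * m + B' (hL i)).primeFactors.card)
      (fun i => (A' (hM i) * m + B' (hM i)).primeFactors.card) hS hS'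
      (fun i hi => (mem_filter.1 hi).2) (fun i hi => (mem_filter.1 hi).2)
    refine ⟨i, j, ?_⟩
    -- facts on the values
    have hndF : ∀ h, ∀ y, ¬ rr y ∣ A' h * m + B' h := by
      intro h y hd
      have h0 : rr y ∣ A' h * m := (hrA y h).mul_right m
      have h1 : rr y ∣ B' h := (Nat.dvd_add_right h0).1 hd
      exact (hrp y).one_lt.ne' (Nat.dvd_one.1 ((hcop' h) ▸ Nat.dvd_gcd (hrA y h) h1))
    have hωall : ∀ h, (A' h * m + B' h).primeFactors.card ≤
        Fintype.card {h : ℕ × ℕ // h ∈ FS} * R1 := fun h =>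
      (single_le_sum (f := fun h => (A' h * m + B' h).primeFactors.card)
        (fun _ _ => Nat.zero_le _) (mem_univ h)).trans hall
    have hOm : ∀ h : {h : ℕ × ℕ // h ∈ FS}, ArithmeticFunction.cardFactors
        (h.1.1 * (N0 + E * m) + h.1.2) ≤ (∑ y : (Σ h : {h : ℕ × ℕ // h ∈ FS},
          Fin (ex h).length), (ex y.1).get y.2) + Fintype.card {h : ℕ × ℕ // h ∈ FS} * R1 := by
      intro h
      have e1 := hval h m
      rw [e1]
      have e2 := Om_presc (fun y : (Σ h : {h : ℕ × ℕ // h ∈ FS}, Fin (ex h).length) => y.1) h rr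
        (fun y => (ex y.1).get y.2) hrp (hsq h)
      have e3 := hωall h
      exact e2.trans (Nat.add_le_add_left e3 _)
    have hFv : ∀ h : {h : ℕ × ℕ // h ∈ FS}, Fm f (h.1.1 * (N0 + E * m) + h.1.2) =
        ((ex h).map f).prod * f 1 ^ (A' h * m + B' h).primeFactors.card := by
      intro h
      have e1 := hval h m
      rw [e1, Fm_presc f (fun y : (Σ h : {h : ℕ × ℕ // h ∈ FS}, Fin (ex h).length) => y.1) h rr
        (fun y => (ex y.1).get y.2) hrp hrinj (fun y => hex1 _ _ (List.get_mem _ _)) (hsq h)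
        (fun y => hndF h y), prod_sigma_list ex f h]
    have hcopT : ∀ y : ℕ, 0 < y → y ≤ T → ∀ h : {h : ℕ × ℕ // h ∈ FS},
        Nat.Coprime y (h.1.1 * (N0 + E * m) + h.1.2) := by
      intro y hy hyT h
      apply Nat.coprime_of_dvd
      intro p hp h1 h2
      exact hsmall p hp ((Nat.le_of_dvd hy h1).trans hyT) h m h2
    have hxT : ∀ i, x i ≤ T := by
      intro i
      have h1 := hT2 (hL i)
      rw [hLv, hpL] at h1
      refine le_trans ?_ h1
      exact Nat.le_mul_of_pos_left _ (Nat.mul_pos (ha s) hW1)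
    have hzT : ∀ j, z j ≤ T := by
      intro j
      have h1 := hT2 (hM j)
      rw [hMv, hpM] at h1
      refine le_trans ?_ h1
      exact Nat.le_mul_of_pos_left _ (Nat.mul_pos (ha t) hW1)
    have hzgT : zg i j ≤ T := by
      refine le_trans ?_ (hzT j)
      rw [hzg i j]
      exact Nat.le_mul_of_pos_right _ (hg0 i j)
    have hxgT : xg i j ≤ T := by
      refine le_trans ?_ (hxT i)
      rw [hxg i j]
      exact Nat.le_mul_of_pos_right _ (hg0 i j)
    obtain ⟨hs1, hs2, hs3⟩ := hpair i j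
    have hvs : a s * W * (κ i j * B s + zg i j * x i * (N0 + E * m)) + B s =
        zg i j * ((hL i).1.1 * (N0 + E * m) + (hL i).1.2) := by
      rw [hLv, hpL]
      exact hs1 _
    have hvt : a t * W * (κ i j * B s + zg i j * x i * (N0 + E * m)) + B t =
        xg i j * ((hM j).1.1 * (N0 + E * m) + (hM j).1.2) := by
      rw [hMv, hpM]
      exact hs3 _
    have hLne : ∀ h : {h : ℕ × ℕ // h ∈ FS}, h.1.1 * (N0 + E * m) + h.1.2 ≠ 0 := by
      intro h h0
      have := (hFSp h.1 h.2).2.1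
      omega
    refine ⟨?_, ?_, ?_⟩
    · rw [hν]
      have h1 : (q : ℤ) ∣ ((W : ℕ) : ℤ) := Int.natCast_dvd_natCast.2 hqW
      push_cast
      have e : (n0 : ℤ) + W * (κ i j * B s + zg i j * x i * (N0 + E * m)) - c =
          (n0 - c) + W * (κ i j * B s + zg i j * x i * (N0 + E * m)) := by ring
      rw [e]
      exact dvd_add hn0c (h1.mul_right _)
    · intro u
      rw [hform i j m u]
      refine ⟨?_, ?_, ?_⟩
      · have := hB1 u
        have h1 : 0 < a u * W * (κ i j * B s + zg i j * x i * (N0 + E * m)) + B u := by omega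
        exact_mod_cast h1
      · intro p hp hpM' hd
        have h1 : p ∣ a u * W * (κ i j * B s + zg i j * x i * (N0 + E * m)) + B u := by
          exact_mod_cast hd
        have h2 : p ∣ W := hWp p hp (by omega)
        have h3 : p ∣ a u * W * (κ i j * B s + zg i j * x i * (N0 + E * m)) :=
          (h2.mul_left _).mul_right _
        have h4 : p ∣ B u := (Nat.dvd_add_right h3).1 h1
        exact hp.one_lt.ne' (Nat.dvd_one.1 ((hBW u) ▸ Nat.dvd_gcd h4 h2))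
      · rw [Int.toNat_natCast]
        refine le_trans ?_ (le_max_right _ _)
        rw [hK2]
        by_cases hus : u = s
        · rw [hus, hvs, ArithmeticFunction.cardFactors_mul (hzg0 i j).ne' (hLne _)]
          have e1 := cardFactors_le (hzg0 i j).ne'
          have e2 := hOm (hL i)
          omega
        · by_cases hut : u = t
          · rw [hut, hvt, ArithmeticFunction.cardFactors_mul (hxg0 i j).ne' (hLne _)]
            have e1 := cardFactors_le (hxg0 i j).ne'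
            have e2 := hOm (hM j)
            omega
          · have e2 := hOm ⟨pN i j u, hNF i j u hus hut⟩
            simp only at e2
            rw [hpN] at e2
            have e3 : a u * W * (κ i j * B s + zg i j * x i * (N0 + E * m)) + B u =
                a u * W * (zg i j * x i) * (N0 + E * m) + (a u * W * κ i j * B s + B u) := by
              ring
            rw [e3]
            simp only at e2
            omega
    · rw [hform i j m s, hform i j m t, Int.toNat_natCast, Int.toNat_natCast, hvs, hvt,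
        Fm_mul f (hzg0 i j).ne' (hLne _) (hcopT _ (hzg0 i j) hzgT _),
        Fm_mul f (hxg0 i j).ne' (hLne _) (hcopT _ (hxg0 i j) hxgT _), hFv, hFv, hexL, hexM,
        List.map_append, List.map_append, List.map_append, List.prod_append, List.prod_append,
        List.prod_append, hlx2, hlz2, List.map_replicate, List.prod_replicate, hUV]
      have h1 := hFm f hf0 i j
      rw [prod_sigma_pow2 cc (fun y => f (α y - β y) * f (β y)) i j,
        prod_sigma_pow2 cc (fun y => f (β y - α y) * f (α y)) i j, hgad, mul_pow, ← hxgd, ← hzgd] at h1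
      have h2 : Fm f (zg i j) * Fm f (x i) = Fm f (xg i j) * Fm f (z j) * f 1 ^ cc i j := by
        have h3 : Fm f (zg i j) * Fm f (x i) * (∏ y, f (α y - β y) * f (β y)) ^ cc i j =
            Fm f (xg i j) * Fm f (z j) * f 1 ^ cc i j *
              (∏ y, f (α y - β y) * f (β y)) ^ cc i j := by
          rw [h1, mul_assoc (Fm f (xg i j) * Fm f (z j))]
        exact mul_right_cancel h3
      have h4 : f 1 ^ cc i j * f 1 ^ (A' (hL i) * m + B' (hL i)).primeFactors.card =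
          f 1 ^ R * f 1 ^ (A' (hM j) * m + B' (hM j)).primeFactors.card := by
        rw [← pow_add, ← pow_add, hij]
      calc Fm f (zg i j) * (Fm f (x i) * (γ * (List.map f V).prod) *
            f 1 ^ (A' (hL i) * m + B' (hL i)).primeFactors.card)
          = (Fm f (zg i j) * Fm f (x i)) * (γ * (List.map f V).prod) *
            f 1 ^ (A' (hL i) * m + B' (hL i)).primeFactors.card := by ac_rfl
        _ = Fm f (xg i j) * Fm f (z j) * (γ * (List.map f V).prod) * (f 1 ^ cc i j *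
            f 1 ^ (A' (hL i) * m + B' (hL i)).primeFactors.card) := by rw [h2]; ac_rfl
        _ = _ := by rw [h4]; ac_rfl

end Pool.Agent.Y887.DK
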