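import Mathlib
import Pool.Agent.Y887.DK.Asm

/-!
The theorem on general systems of linear forms, and the theorem on patterns of consecutive rough
numbers.
-/

set_option autoImplicit false

namespace Pool.Agent.Y887.DK

open Finset Filter Pool.Agent.Y887.TD

theorem Fm_congr {Γ : Type} [CommMonoid Γ] {f f' : ℕ → Γ} (h : ∀ k, 1 ≤ k → f k = f' k) (n : ℕ) :
    Fm f n = Fm f' n := by
  unfold Fm
  apply prod_congr rfl
  intro p hp
  apply h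
  rw [Nat.succ_le_iff, Nat.pos_iff_ne_zero, ← Finsupp.mem_support_iff, Nat.support_factorization]
  exact hp

/-- the theorem on systems of linear forms -/
theorem forms_main {r : ℕ} (a : Fin r → ℕ) (b : Fin r → ℤ) (ha : ∀ u, 1 ≤ a u)
    (hadm : ∀ p : ℕ, p.Prime → ∃ n : ℤ, ∀ u, ¬ (p : ℤ) ∣ a u * n + b u)
    (s t : Fin r) (hst : s ≠ t) (hdets : ∀ u, u ≠ s → (a s : ℤ) * b u ≠ a u * b s)
    (hdett : ∀ u, u ≠ t → (a t : ℤ) * b u ≠ a u * b t)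
    (q : ℕ) (c : ℤ) (hq : 1 ≤ q) (hc : ∀ u, IsCoprime (a u * c + b u) (q : ℤ)) (M : ℕ)
    {Γ : Type} [CommGroup Γ] (f : ℕ → Γ) (u v : Multiset ℕ)
    (hu : ∀ k ∈ u, 1 ≤ k) (hv : ∀ k ∈ v, 1 ≤ k) (hs : u.sum = v.sum + 1)
    (hp : (u.map f).prod = (v.map f).prod) (γ : Γ)
    (hγ : γ ∈ Subgroup.closure (f '' {k | 1 ≤ k})) :
    ∃ K : ℕ, ∀ᶠ X : ℕ in atTop, (X : ℝ) / Real.log X ^ K ≤
      ({n : ℕ | n ≤ X ∧ GoodN a b s t q c M f γ K n}.ncard : ℝ) := by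
  classical
  obtain ⟨f', hf'0, hf'⟩ : ∃ f' : ℕ → Γ, f' 0 = 1 ∧ ∀ k, 1 ≤ k → f' k = f k := by
    refine ⟨fun k => if k = 0 then 1 else f k, by simp, fun k hk => ?_⟩
    have : k ≠ 0 := by omega
    simp [this]
  have hp' : (u.map f').prod = (v.map f').prod := by
    rw [Multiset.map_congr rfl (fun k hk => hf' k (hu k hk)), hp,
      Multiset.map_congr rfl (fun k hk => hf' k (hv k hk))]
  obtain ⟨w, α, β, hα, hβ, hαβ, hgad⟩ := gadget f' hf'0 u v hu hv hs hp'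
  have himg : f' '' {k | 1 ≤ k} = f '' {k | 1 ≤ k} := Set.image_congr fun k hk => hf' k hk
  rw [← himg] at hγ
  have hGood : ∀ (s t : Fin r) (γ : Γ) (K n : ℕ), GoodN a b s t q c M f' γ K n →
      GoodN a b s t q c M f γ K n := by
    intro s t γ K n ⟨h1, h2, h3⟩
    refine ⟨h1, h2, ?_⟩
    rw [Fm_congr (fun k hk => (hf' k hk).symm), h3, Fm_congr (f := f) (fun k hk => (hf' k hk).symm)]
  have hfin : ∀ (P P' : ℕ → Prop) (X : ℕ), (∀ n, P n → P' n) →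
      (({n : ℕ | n ≤ X ∧ P n}.ncard : ℕ) : ℝ) ≤ (({n : ℕ | n ≤ X ∧ P' n}.ncard : ℕ) : ℝ) := by
    intro P P' X h
    have h1 : {n : ℕ | n ≤ X ∧ P n} ⊆ {n : ℕ | n ≤ X ∧ P' n} := fun n hn => ⟨hn.1, h n hn.2⟩
    have h2 : {n : ℕ | n ≤ X ∧ P' n}.Finite := (Set.finite_Iic X).subset fun n hn => hn.1
    exact_mod_cast Set.ncard_le_ncard h1 h2
  rcases lt_or_gt_of_ne (hdets t (Ne.symm hst)) with hlt | hgt
  · obtain ⟨U, V, hU, hV, hUV⟩ := closure_rep f' γ hγ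
    obtain ⟨K, hK⟩ := pointwise2 a b ha hadm s t hdets hdett hlt q c hq hc M f' hf'0 α β hα hβ hαβ
      hgad γ U V hU hV hUV
    refine ⟨K, ?_⟩
    filter_upwards [hK] with X hX
    exact hX.trans (hfin _ _ X (hGood s t γ K))
  · obtain ⟨U, V, hU, hV, hUV⟩ := closure_rep f' γ⁻¹ (inv_mem hγ)
    obtain ⟨K, hK⟩ := pointwise2 a b ha hadm t s hdett hdets hgt q c hq hc M f' hf'0 α β hα hβ hαβ
      hgad γ⁻¹ U V hU hV hUV
    refine ⟨K, ?_⟩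
    filter_upwards [hK] with X hX
    refine hX.trans (hfin _ _ X (fun n hn => ?_))
    obtain ⟨h1, h2, h3⟩ := hGood t s γ⁻¹ K n hn
    refine ⟨h1, h2, ?_⟩
    rw [h3, mul_inv_cancel_left]

end Pool.Agent.Y887.DK
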